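import Mathlib

set_option autoImplicit false

namespace Pool.Agent.Helper47.Ext

open scoped Manifold ContDiff Topology ComplexConjugate
open Set Metric Filter

/-- squared length -/
noncomputable def nn {n : ℕ} (v : Fin n → ℂ) : ℂ := ∑ k, v k * conj (v k)

/-- the projection matrix onto the line spanned by `v` -/
noncomputable def pj {n : ℕ} (v : Fin n → ℂ) : Fin n → Fin n → ℂ :=
  fun i j => v i * conj (v j) / nn v

lemma nn_eq {n : ℕ} (v : Fin n → ℂ) : nn v = ((∑ k, ‖v k‖ ^ 2 : ℝ) : ℂ) := by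
  rw [nn]
  push_cast
  refine Finset.sum_congr rfl fun k _ => ?_
  rw [Complex.mul_conj']

lemma sum_pos_of_ne {n : ℕ} {v : Fin n → ℂ} (hv : v ≠ 0) : 0 < ∑ k, ‖v k‖ ^ 2 := by
  obtain ⟨k, hk⟩ := Function.ne_iff.1 hv
  refine Finset.sum_pos' (fun i _ => sq_nonneg _) ⟨k, Finset.mem_univ _, ?_⟩
  have : 0 < ‖v k‖ := norm_pos_iff.2 hk
  positivity

lemma nn_ne {n : ℕ} {v : Fin n → ℂ} (hv : v ≠ 0) : nn v ≠ 0 := by
  rw [nn_eq]
  exact_mod_cast (sum_pos_of_ne hv).ne'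

lemma pj_diag_ne {n : ℕ} {v : Fin n → ℂ} (hv : v ≠ 0) {i : Fin n} : pj v i i ≠ 0 ↔ v i ≠ 0 := by
  rw [pj, Ne, div_eq_zero_iff, not_or, mul_eq_zero, not_or]
  constructor
  · rintro ⟨⟨h, _⟩, _⟩; exact h
  · intro h
    exact ⟨⟨h, by simpa using h⟩, nn_ne hv⟩

lemma pj_ratio {n : ℕ} {v : Fin n → ℂ} (hv : v ≠ 0) (a i : Fin n) :
    pj v a i / pj v i i = v a / v i := by
  by_cases h : v i = 0
  · simp [pj, h]
  · have h2 := nn_ne hv
    have h3 : conj (v i) ≠ 0 := by simpa using h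
    rw [pj, pj]
    field_simp

lemma nn_smul {n : ℕ} (c : ℂ) (v : Fin n → ℂ) : nn (c • v) = (c * conj c) * nn v := by
  rw [nn, nn, Finset.mul_sum]
  refine Finset.sum_congr rfl fun k _ => ?_
  simp only [Pi.smul_apply, smul_eq_mul, map_mul]; ring

lemma pj_smul {n : ℕ} {c : ℂ} (hc : c ≠ 0) (v : Fin n → ℂ) : pj (c • v) = pj v := by
  have h3 : conj c ≠ 0 := by simpa using hc
  funext i j
  rw [pj, pj, nn_smul]
  simp only [Pi.smul_apply, smul_eq_mul, map_mul]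
  have h4 : c * conj c ≠ 0 := mul_ne_zero hc h3
  have : c * v i * (conj c * conj (v j)) = (c * conj c) * (v i * conj (v j)) := by ring
  rw [this, mul_div_mul_left _ _ h4]

/-- the ambient vector space -/
abbrev Amb := (Fin 2 → Fin 2 → ℂ) × (Fin 3 → Fin 3 → ℂ) × ℂ

/-- the incidence relation -/
def Rel (x : Fin 2 → ℂ) (y : Fin 3 → ℂ) (t : ℂ) : Prop :=
  x 0 ^ 2 * y 1 = x 1 ^ 2 * y 0 + t * (x 0 * x 1 * y 2)

lemma Rel.smul {x : Fin 2 → ℂ} {y : Fin 3 → ℂ} {t : ℂ} (h : Rel x y t) (a b : ℂ) :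
    Rel (a • x) (b • y) t := by
  unfold Rel at *
  simp only [Pi.smul_apply, smul_eq_mul]
  linear_combination (a ^ 2 * b) * h

/-- total space of the family -/
def XT : Set Amb :=
  {P | ‖P.2.2‖ < 1 ∧ ∃ x y, x ≠ 0 ∧ y ≠ 0 ∧ Rel x y P.2.2 ∧ P.1 = pj x ∧ P.2.1 = pj y}

/-- data of a point -/
def Good (x : Fin 2 → ℂ) (y : Fin 3 → ℂ) (t : ℂ) : Prop := x ≠ 0 ∧ y ≠ 0 ∧ Rel x y t ∧ ‖t‖ < 1

lemma Good.smul {x : Fin 2 → ℂ} {y : Fin 3 → ℂ} {t : ℂ} (h : Good x y t) {a b : ℂ}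
    (ha : a ≠ 0) (hb : b ≠ 0) : Good (a • x) (b • y) t :=
  ⟨smul_ne_zero ha h.1, smul_ne_zero hb h.2.1, h.2.2.1.smul a b, h.2.2.2⟩

lemma good0 : Good ![1, 0] ![0, 0, 1] 0 := by
  refine ⟨?_, ?_, ?_, by simp⟩
  · intro h
    have := congrFun h 0
    simp at this
  · intro h
    have := congrFun h 2
    simp at this
  · simp [Rel]

open Classical in
/-- the point with given homogeneous coordinates -/
noncomputable def pt (x : Fin 2 → ℂ) (y : Fin 3 → ℂ) (t : ℂ) : XT :=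
  if h : Good x y t then ⟨(pj x, pj y, t), h.2.2.2, x, y, h.1, h.2.1, h.2.2.1, rfl, rfl⟩
  else ⟨(pj ![1, 0], pj ![0, 0, 1], 0), good0.2.2.2, _, _, good0.1, good0.2.1, good0.2.2.1, rfl, rfl⟩

lemma pt_val {x : Fin 2 → ℂ} {y : Fin 3 → ℂ} {t : ℂ} (h : Good x y t) :
    (pt x y t).1 = (pj x, pj y, t) := by
  rw [pt, dif_pos h]

lemma exists_rep (P : XT) : ∃ x y t, Good x y t ∧ P = pt x y t := by
  obtain ⟨P, ht, x, y, hx, hy, hr, h1, h2⟩ := P
  have hg : Good x y P.2.2 := ⟨hx, hy, hr, ht⟩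
  refine ⟨x, y, P.2.2, hg, Subtype.ext ?_⟩
  rw [pt_val hg]
  exact Prod.ext h1 (Prod.ext h2 rfl)

lemma pt_smul {x : Fin 2 → ℂ} {y : Fin 3 → ℂ} {t : ℂ} (h : Good x y t) {a b : ℂ}
    (ha : a ≠ 0) (hb : b ≠ 0) : pt (a • x) (b • y) t = pt x y t := by
  apply Subtype.ext
  rw [pt_val h, pt_val (h.smul ha hb), pj_smul ha, pj_smul hb]

/-- affine coordinate on the first factor -/
noncomputable def Xc (a i : Fin 2) (P : XT) : ℂ := P.1.1 a i / P.1.1 i i

/-- affine coordinate on the second factor -/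
noncomputable def Yc (b k : Fin 3) (P : XT) : ℂ := P.1.2.1 b k / P.1.2.1 k k

/-- the parameter -/
def tc (P : XT) : ℂ := P.1.2.2

/-- the sets where two homogeneous coordinates are nonzero -/
def US (i : Fin 2) (k : Fin 3) : Set XT := {P | P.1.1 i i ≠ 0 ∧ P.1.2.1 k k ≠ 0}

section

variable {x : Fin 2 → ℂ} {y : Fin 3 → ℂ} {t : ℂ}

lemma Xc_pt (h : Good x y t) (a i : Fin 2) : Xc a i (pt x y t) = x a / x i := by
  rw [Xc, pt_val h]
  exact pj_ratio h.1 a i

lemma Yc_pt (h : Good x y t) (b k : Fin 3) : Yc b k (pt x y t) = y b / y k := by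
  rw [Yc, pt_val h]
  exact pj_ratio h.2.1 b k

lemma tc_pt (h : Good x y t) : tc (pt x y t) = t := by
  rw [tc, pt_val h]

lemma mem_US (h : Good x y t) (i : Fin 2) (k : Fin 3) :
    pt x y t ∈ US i k ↔ x i ≠ 0 ∧ y k ≠ 0 := by
  rw [US, mem_ofPred_eq, pt_val h]
  exact and_congr (pj_diag_ne h.1) (pj_diag_ne h.2.1)

end

lemma isOpen_US (i : Fin 2) (k : Fin 3) : IsOpen (US i k) := by
  have h1 : Continuous (fun P : XT => P.1.1 i i) := by fun_prop
  have h2 : Continuous (fun P : XT => P.1.2.1 k k) := by fun_prop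
  exact (isOpen_ne_fun h1 continuous_const).inter (isOpen_ne_fun h2 continuous_const)

lemma continuousOn_Xc (a i : Fin 2) (k : Fin 3) : ContinuousOn (Xc a i) (US i k) := by
  have h1 : Continuous (fun P : XT => P.1.1 a i) := by fun_prop
  have h2 : Continuous (fun P : XT => P.1.1 i i) := by fun_prop
  exact h1.continuousOn.div h2.continuousOn (fun P hP => hP.1)

lemma continuousOn_Yc (b k : Fin 3) (i : Fin 2) : ContinuousOn (Yc b k) (US i k) := by
  have h1 : Continuous (fun P : XT => P.1.2.1 b k) := by fun_prop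
  have h2 : Continuous (fun P : XT => P.1.2.1 k k) := by fun_prop
  exact h1.continuousOn.div h2.continuousOn (fun P hP => hP.2)

lemma continuous_tc : Continuous tc := by
  unfold tc; fun_prop

lemma norm_tc (P : XT) : ‖tc P‖ < 1 := P.2.1

/-- normalised representative on `US i k` -/
lemma norm_rep {P : XT} {i : Fin 2} {k : Fin 3} (hP : P ∈ US i k) :
    Good (fun a => Xc a i P) (fun b => Yc b k P) (tc P) ∧
      P = pt (fun a => Xc a i P) (fun b => Yc b k P) (tc P) ∧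
      Xc i i P = 1 ∧ Yc k k P = 1 := by
  obtain ⟨x, y, t, hg, rfl⟩ := exists_rep P
  obtain ⟨hxi, hyk⟩ := (mem_US hg i k).1 hP
  have e1 : (fun a => Xc a i (pt x y t)) = (x i)⁻¹ • x := by
    funext a
    rw [Xc_pt hg, Pi.smul_apply, smul_eq_mul]; ring
  have e2 : (fun b => Yc b k (pt x y t)) = (y k)⁻¹ • y := by
    funext b
    rw [Yc_pt hg, Pi.smul_apply, smul_eq_mul]; ring
  rw [e1, e2, tc_pt hg, Xc_pt hg, Yc_pt hg]
  exact ⟨hg.smul (inv_ne_zero hxi) (inv_ne_zero hyk),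
    (pt_smul hg (inv_ne_zero hxi) (inv_ne_zero hyk)).symm, div_self hxi, div_self hyk⟩

lemma continuous_pj {n : ℕ} {α : Type*} [TopologicalSpace α] {f : α → Fin n → ℂ} {s : Set α}
    (hf : ContinuousOn f s) (hne : ∀ a ∈ s, f a ≠ 0) : ContinuousOn (fun a => pj (f a)) s := by
  have hfi : ∀ i, ContinuousOn (fun a => f a i) s := fun i => continuousOn_pi.1 hf i
  have hnn : ContinuousOn (fun a => nn (f a)) s := by
    unfold nn
    refine continuousOn_finsetSum _ fun k _ => ?_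
    exact (hfi k).mul (Complex.continuous_conj.comp_continuousOn (hfi k))
  refine continuousOn_pi.2 fun i => continuousOn_pi.2 fun j => ?_
  unfold pj
  exact ((hfi i).mul (Complex.continuous_conj.comp_continuousOn (hfi j))).div hnn
    (fun a ha => nn_ne (hne a ha))

lemma continuousOn_pt {α : Type*} [TopologicalSpace α] {s : Set α} {x : α → Fin 2 → ℂ}
    {y : α → Fin 3 → ℂ} {t : α → ℂ} (hx : ContinuousOn x s) (hy : ContinuousOn y s)
    (ht : ContinuousOn t s) (hg : ∀ a ∈ s, Good (x a) (y a) (t a)) :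
    ContinuousOn (fun a => pt (x a) (y a) (t a)) s := by
  rw [Topology.IsInducing.subtypeVal.continuousOn_iff]
  have h1 : ContinuousOn (fun a => ((pj (x a), pj (y a), t a) : Amb)) s :=
    (continuous_pj hx fun a ha => (hg a ha).1).prodMk
      ((continuous_pj hy fun a ha => (hg a ha).2.1).prodMk ht)
  refine h1.congr (fun a ha => ?_)
  exact pt_val (hg a ha)

end Pool.Agent.Helper47.Ext
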