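import Mathlib
import Pool.Agent.Helper47.Ext.Space

set_option autoImplicit false

namespace Pool.Agent.Helper47.Ext

open scoped Manifold ContDiff Topology ComplexConjugate
open Set Metric Filter

/-- model space -/
abbrev E3 := ℂ × ℂ × ℂ

/-- chart data -/
structure CD where
  i : Fin 2
  a : Fin 2
  k : Fin 3
  b : Fin 3
  xx : E3 → Fin 2 → ℂ
  yy : E3 → Fin 3 → ℂ
  xxi : ∀ u, xx u i = 1
  yyk : ∀ u, yy u k = 1
  xxa : ∀ u, xx u a = u.1
  yyb : ∀ u, yy u b = u.2.1
  cx : ∀ j, ContDiff ℂ ω (fun u => xx u j)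
  cy : ∀ j, ContDiff ℂ ω (fun u => yy u j)
  rel : ∀ u, Rel (xx u) (yy u) u.2.2
  uniq : ∀ x y t, Rel x y t → x i = 1 → y k = 1 → x = xx (x a, y b, t) ∧ y = yy (x a, y b, t)

namespace CD

variable (c : CD)

lemma good {u : E3} (hu : ‖u.2.2‖ < 1) : Good (c.xx u) (c.yy u) u.2.2 := by
  refine ⟨?_, ?_, c.rel u, hu⟩
  · intro h
    have := congrFun h c.i
    rw [c.xxi] at this
    exact one_ne_zero this
  · intro h
    have := congrFun h c.k
    rw [c.yyk] at this
    exact one_ne_zero this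

/-- forward map -/
noncomputable def fwd (P : XT) : E3 := (Xc c.a c.i P, Yc c.b c.k P, tc P)

/-- backward map -/
noncomputable def bwd (u : E3) : XT := pt (c.xx u) (c.yy u) u.2.2

lemma bwd_mem {u : E3} (hu : ‖u.2.2‖ < 1) : c.bwd u ∈ US c.i c.k := by
  rw [bwd, mem_US (c.good hu), c.xxi, c.yyk]
  exact ⟨one_ne_zero, one_ne_zero⟩

lemma fwd_bwd {u : E3} (hu : ‖u.2.2‖ < 1) : c.fwd (c.bwd u) = u := by
  rw [fwd, bwd, Xc_pt (c.good hu), Yc_pt (c.good hu), tc_pt (c.good hu), c.xxi, c.yyk, c.xxa,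
    c.yyb, div_one, div_one]

lemma bwd_fwd {P : XT} (hP : P ∈ US c.i c.k) : c.bwd (c.fwd P) = P := by
  obtain ⟨hg, hPe, h1, h2⟩ := norm_rep hP
  have h3 := c.uniq _ _ _ hg.2.2.1 h1 h2
  conv_rhs => rw [hPe]
  rw [bwd]
  have e : c.fwd P = (Xc c.a c.i P, Yc c.b c.k P, tc P) := rfl
  rw [e]
  rw [← h3.1, ← h3.2]

/-- the chart -/
noncomputable def chart : OpenPartialHomeomorph XT E3 where
  toFun := c.fwd
  invFun := c.bwd
  source := US c.i c.k
  target := {u | ‖u.2.2‖ < 1}
  map_source' P _ := norm_tc P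
  map_target' _ hu := c.bwd_mem hu
  left_inv' _ hP := c.bwd_fwd hP
  right_inv' _ hu := c.fwd_bwd hu
  open_source := isOpen_US _ _
  open_target := by
    have : Continuous (fun u : E3 => ‖u.2.2‖) := by fun_prop
    exact isOpen_lt this continuous_const
  continuousOn_toFun :=
    (continuousOn_Xc _ _ _).prodMk ((continuousOn_Yc _ _ _).prodMk continuous_tc.continuousOn)
  continuousOn_invFun := by
    refine continuousOn_pt ?_ ?_ ?_ (fun u hu => c.good hu)
    · exact (continuous_pi fun j => (c.cx j).continuous).continuousOn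
    · exact (continuous_pi fun j => (c.cy j).continuous).continuousOn
    · fun_prop

lemma chart_apply (P : XT) : c.chart P = (Xc c.a c.i P, Yc c.b c.k P, tc P) := rfl

lemma chart_symm_apply (u : E3) : c.chart.symm u = pt (c.xx u) (c.yy u) u.2.2 := rfl

lemma chart_source : c.chart.source = US c.i c.k := rfl

lemma chart_target : c.chart.target = {u | ‖u.2.2‖ < 1} := rfl

/-- coordinates in a chart -/
lemma Xc_symm {u : E3} (hu : ‖u.2.2‖ < 1) (a i : Fin 2) :
    Xc a i (c.chart.symm u) = c.xx u a / c.xx u i := Xc_pt (c.good hu) a i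

lemma Yc_symm {u : E3} (hu : ‖u.2.2‖ < 1) (b k : Fin 3) :
    Yc b k (c.chart.symm u) = c.yy u b / c.yy u k := Yc_pt (c.good hu) b k

lemma tc_symm {u : E3} (hu : ‖u.2.2‖ < 1) : tc (c.chart.symm u) = u.2.2 := tc_pt (c.good hu)

lemma symm_mem {u : E3} (hu : ‖u.2.2‖ < 1) (i : Fin 2) (k : Fin 3) :
    c.chart.symm u ∈ US i k ↔ c.xx u i ≠ 0 ∧ c.yy u k ≠ 0 := mem_US (c.good hu) i k

end CD

/-- chart around `y 2 ≠ 0`, `x 0 ≠ 0` -/
noncomputable def cA : CD where
  i := 0
  a := 1
  k := 2
  b := 0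
  xx u := ![1, u.1]
  yy u := ![u.2.1, u.1 ^ 2 * u.2.1 + u.2.2 * u.1, 1]
  xxi _ := rfl
  yyk _ := rfl
  xxa _ := rfl
  yyb _ := rfl
  cx j := by fin_cases j <;> simp <;> fun_prop
  cy j := by fin_cases j <;> simp <;> fun_prop
  rel u := by simp [Rel]
  uniq x y t h hx hy := by
    unfold Rel at h
    rw [hx, hy] at h
    constructor
    · funext j
      fin_cases j
      · simpa using hx
      · simp
    · funext j
      fin_cases j
      · simp
      · simp
        linear_combination h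
      · simpa using hy

/-- chart around `y 0 ≠ 0`, `x 0 ≠ 0` -/
noncomputable def cB : CD where
  i := 0
  a := 1
  k := 0
  b := 2
  xx u := ![1, u.1]
  yy u := ![1, u.1 ^ 2 + u.2.2 * u.1 * u.2.1, u.2.1]
  xxi _ := rfl
  yyk _ := rfl
  xxa _ := rfl
  yyb _ := rfl
  cx j := by fin_cases j <;> simp <;> fun_prop
  cy j := by fin_cases j <;> simp <;> fun_prop
  rel u := by simp [Rel]; ring
  uniq x y t h hx hy := by
    unfold Rel at h
    rw [hx, hy] at h
    constructor
    · funext j
      fin_cases j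
      · simpa using hx
      · simp
    · funext j
      fin_cases j
      · simpa using hy
      · simp
        linear_combination h
      · simp

/-- chart around `y 2 ≠ 0`, `x 1 ≠ 0` -/
noncomputable def cC : CD where
  i := 1
  a := 0
  k := 2
  b := 1
  xx u := ![u.1, 1]
  yy u := ![u.1 ^ 2 * u.2.1 - u.2.2 * u.1, u.2.1, 1]
  xxi _ := rfl
  yyk _ := rfl
  xxa _ := rfl
  yyb _ := rfl
  cx j := by fin_cases j <;> simp <;> fun_prop
  cy j := by fin_cases j <;> simp <;> fun_prop
  rel u := by simp [Rel]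
  uniq x y t h hx hy := by
    unfold Rel at h
    rw [hx, hy] at h
    constructor
    · funext j
      fin_cases j
      · simp
      · simpa using hx
    · funext j
      fin_cases j
      · simp
        linear_combination -h
      · simp
      · simpa using hy

/-- chart around `y 1 ≠ 0`, `x 1 ≠ 0` -/
noncomputable def cD : CD where
  i := 1
  a := 0
  k := 1
  b := 2
  xx u := ![u.1, 1]
  yy u := ![u.1 ^ 2 - u.2.2 * u.1 * u.2.1, 1, u.2.1]
  xxi _ := rfl
  yyk _ := rfl
  xxa _ := rfl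
  yyb _ := rfl
  cx j := by fin_cases j <;> simp <;> fun_prop
  cy j := by fin_cases j <;> simp <;> fun_prop
  rel u := by simp [Rel]; ring
  uniq x y t h hx hy := by
    unfold Rel at h
    rw [hx, hy] at h
    constructor
    · funext j
      fin_cases j
      · simp
      · simpa using hx
    · funext j
      fin_cases j
      · simp
        linear_combination -h
      · simpa using hy
      · simp

/-- the four charts -/
inductive IsCD : CD → Prop
  | A : IsCD cA
  | B : IsCD cB
  | C : IsCD cC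
  | D : IsCD cD

lemma exists_chart (P : XT) : ∃ c, IsCD c ∧ P ∈ c.chart.source := by
  obtain ⟨x, y, t, hg, rfl⟩ := exists_rep P
  have hrel := hg.2.2.1
  unfold Rel at hrel
  by_cases hx0 : x 0 = 0
  · have hx1 : x 1 ≠ 0 := by
      intro hx1
      apply hg.1
      funext j
      fin_cases j
      · exact hx0
      · exact hx1
    by_cases hy2 : y 2 = 0
    · have hy1 : y 1 ≠ 0 := by
        intro hy1
        apply hg.2.1
        funext j
        fin_cases j
        · rw [hx0] at hrel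
          have : x 1 ^ 2 * y 0 = 0 := by linear_combination -hrel
          exact (mul_eq_zero.1 this).resolve_left (pow_ne_zero 2 hx1)
        · exact hy1
        · exact hy2
      exact ⟨cD, IsCD.D, (mem_US hg _ _).2 ⟨hx1, hy1⟩⟩
    · exact ⟨cC, IsCD.C, (mem_US hg _ _).2 ⟨hx1, hy2⟩⟩
  · by_cases hy2 : y 2 = 0
    · have hy0 : y 0 ≠ 0 := by
        intro hy0
        apply hg.2.1
        funext j
        fin_cases j
        · exact hy0
        · rw [hy0, hy2] at hrel
          have : x 0 ^ 2 * y 1 = 0 := by linear_combination hrel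
          exact (mul_eq_zero.1 this).resolve_left (pow_ne_zero 2 hx0)
        · exact hy2
      exact ⟨cB, IsCD.B, (mem_US hg _ _).2 ⟨hx0, hy0⟩⟩
    · exact ⟨cA, IsCD.A, (mem_US hg _ _).2 ⟨hx0, hy2⟩⟩

/-- a chart at each point -/
noncomputable def chAt (P : XT) : CD := (exists_chart P).choose

lemma chAt_isCD (P : XT) : IsCD (chAt P) := (exists_chart P).choose_spec.1

lemma mem_chAt (P : XT) : P ∈ (chAt P).chart.source := (exists_chart P).choose_spec.2

noncomputable instance instCS : ChartedSpace E3 XT where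
  atlas := {e | ∃ c, IsCD c ∧ e = c.chart}
  chartAt P := (chAt P).chart
  mem_chart_source P := mem_chAt P
  chart_mem_atlas P := ⟨chAt P, chAt_isCD P, rfl⟩

lemma contDiffOn_transition (c c' : CD) : ContDiffOn ℂ ω (c'.chart ∘ c.chart.symm)
    {u | ‖u.2.2‖ < 1 ∧ c.xx u c'.i ≠ 0 ∧ c.yy u c'.k ≠ 0} := by
  have h1 : ContDiffOn ℂ ω (fun u : E3 => ((c.xx u c'.a / c.xx u c'.i,
      c.yy u c'.b / c.yy u c'.k, u.2.2) : E3))
      {u | ‖u.2.2‖ < 1 ∧ c.xx u c'.i ≠ 0 ∧ c.yy u c'.k ≠ 0} := by
    refine ContDiffOn.prodMk ?_ (ContDiffOn.prodMk ?_ ?_)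
    · exact (c.cx _).contDiffOn.div (c.cx _).contDiffOn (fun u hu => hu.2.1)
    · exact (c.cy _).contDiffOn.div (c.cy _).contDiffOn (fun u hu => hu.2.2)
    · fun_prop
  refine h1.congr (fun u hu => ?_)
  show (Xc c'.a c'.i (c.chart.symm u), Yc c'.b c'.k (c.chart.symm u), tc (c.chart.symm u)) = _
  rw [c.Xc_symm hu.1, c.Yc_symm hu.1, c.tc_symm hu.1]

instance instMan : IsManifold 𝓘(ℂ, E3) ω XT := by
  apply isManifold_of_contDiffOn
  rintro e e' ⟨c, -, rfl⟩ ⟨c', -, rfl⟩
  refine (contDiffOn_transition c c').mono ?_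
  intro u hu
  simp only [modelWithCornersSelf_coe_symm, preimage_id_eq, id_eq, OpenPartialHomeomorph.trans_toPartialEquiv, OpenPartialHomeomorph.symm_toPartialEquiv, PartialEquiv.trans_source,
    PartialEquiv.symm_source, modelWithCornersSelf_coe, range_id, inter_univ, mem_inter_iff] at hu
  have h1 : ‖u.2.2‖ < 1 := hu.1
  refine ⟨h1, ?_⟩
  have h2 : c.chart.symm u ∈ US c'.i c'.k := hu.2
  exact (c.symm_mem h1 _ _).1 h2

end Pool.Agent.Helper47.Ext
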