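import Mathlib

set_option autoImplicit false

namespace Pool.Agent.Helper47.Ext

open scoped Manifold ContDiff Topology
open Set Metric

section

variable (E : Type) [NormedAddCommGroup E] [NormedSpace ℂ E]
  {M : Type} [TopologicalSpace M] [ChartedSpace E M]

/-- A holomorphic disc in the subset `S` of the complex manifold `M` (modelled on `E`): a map `γ`
which is holomorphic on a neighbourhood of the closed unit disc of `ℂ` and maps the closed unit
disc into `S`. -/
def IsDisc (S : Set M) (γ : ℂ → M) : Prop :=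
  (∃ R : ℝ, 1 < R ∧ MDifferentiableOn 𝓘(ℂ, ℂ) 𝓘(ℂ, E) γ (ball 0 R)) ∧
    MapsTo γ (closedBall 0 1) S

/-- Plurisubharmonic functions on `S`, where `S` is an open subset of `M`, or an open subset of a
complex submanifold of `M`. The function is upper semicontinuous with values in `[-∞, ∞)`, it
satisfies the sub-mean value inequality along every holomorphic disc in `S` (the mean over the
circle of an upper semicontinuous function being the infimum of the means of its continuous
majorants), and it is not identically `-∞` on any nonempty relatively open subset of `S`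
(that is, it is locally integrable). -/
structure IsPsh (S : Set M) (φ : M → EReal) : Prop where
  usc : UpperSemicontinuousOn φ S
  lt_top : ∀ x ∈ S, φ x < ⊤
  submean : ∀ γ : ℂ → M, IsDisc E S γ → ∀ u : ℂ → ℝ, ContinuousOn u (sphere 0 1) →
    (∀ z ∈ sphere (0 : ℂ) 1, φ (γ z) ≤ (u z : EReal)) →
      φ (γ 0) ≤ ((Real.circleAverage u 0 1 : ℝ) : EReal)
  nontrivial : ∀ W : Set M, IsOpen W → (W ∩ S).Nonempty → ∃ x ∈ W ∩ S, φ x ≠ ⊥

variable (M) in
/-- A holomorphic line bundle on `M`, given by an open cover `U i` and holomorphic transition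
functions `g i j : U i ∩ U j → ℂ*` satisfying the cocycle condition. A section is given by
functions `s i` on `U i` with `s i = g i j * s j`. -/
structure LineBundle where
  ι : Type
  U : ι → Set M
  isOpen : ∀ i, IsOpen (U i)
  cover : ∀ x, ∃ i, x ∈ U i
  g : ι → ι → M → ℂ
  hol : ∀ i j, MDifferentiableOn 𝓘(ℂ, E) 𝓘(ℂ, ℂ) (g i j) (U i ∩ U j)
  ne_zero : ∀ i j, ∀ x ∈ U i ∩ U j, g i j x ≠ 0
  cocycle : ∀ i j k, ∀ x ∈ U i ∩ U j ∩ U k, g i k x = g i j x * g j k x

/-- The weights `φ i` define a singular hermitian metric (`|s|^2 = |s i|^2 e^(-φ i)` on `U i`) with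
plurisubharmonic weights, that is a semi-positive singular metric, on the restriction of the line
bundle to `S`, where `S` is an open subset or a complex submanifold of `M`. -/
structure LineBundle.IsPosMetric {E : Type} [NormedAddCommGroup E] [NormedSpace ℂ E]
    {M : Type} [TopologicalSpace M] [ChartedSpace E M]
    (L : LineBundle E M) (S : Set M) (φ : L.ι → M → EReal) : Prop where
  psh : ∀ i, IsPsh E (S ∩ L.U i) (φ i)
  compat : ∀ i j, ∀ x ∈ S ∩ (L.U i ∩ L.U j),
    φ i x = φ j x + ((Real.log (‖L.g i j x‖ ^ 2) : ℝ) : EReal)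

/-- The complex submanifold `S` of `M` is a Kähler manifold: it is covered by open sets `V i` with
smooth real functions `ρ i` that are strictly plurisubharmonic along `S` (the Laplacian of `ρ i` is
positive along every holomorphic disc in `S` at an immersed point) and whose differences are
pluriharmonic along `S`. The Kähler form is `i ∂ ∂bar ρ i` restricted to `S`. -/
def IsKahler (S : Set M) : Prop :=
  ∃ (ι : Type) (V : ι → Set M) (ρ : ι → M → ℝ),
    (∀ i, IsOpen (V i)) ∧ (∀ x ∈ S, ∃ i, x ∈ V i) ∧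
    (∀ i, ContMDiffOn 𝓘(ℝ, E) 𝓘(ℝ, ℝ) ∞ (ρ i) (V i)) ∧
    (∀ i γ, IsDisc E (S ∩ V i) γ → mfderiv 𝓘(ℂ, ℂ) 𝓘(ℂ, E) γ 0 ≠ 0 →
      0 < Laplacian.laplacian (ρ i ∘ γ) (0 : ℂ)) ∧
    (∀ i j γ, IsDisc E (S ∩ (V i ∩ V j)) γ →
      Laplacian.laplacian (ρ i ∘ γ) (0 : ℂ) = Laplacian.laplacian (ρ j ∘ γ) (0 : ℂ))

/-- `π : M → Δ` is a proper holomorphic submersion onto the unit disc `Δ` whose fibres are compact
connected Kähler manifolds. -/
structure IsKahlerFamily (π : M → ℂ) : Prop where
  mapsTo : ∀ x, π x ∈ ball (0 : ℂ) 1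
  hol : ContMDiff 𝓘(ℂ, E) 𝓘(ℂ, ℂ) ω π
  submersion : ∀ x, Function.Surjective (mfderiv 𝓘(ℂ, E) 𝓘(ℂ, ℂ) π x)
  proper : ∀ K : Set ℂ, K ⊆ ball (0 : ℂ) 1 → IsCompact K → IsCompact (π ⁻¹' K)
  connected : ∀ t ∈ ball (0 : ℂ) 1, IsConnected (π ⁻¹' {t})
  kahler : ∀ t ∈ ball (0 : ℂ) 1, IsKahler E (π ⁻¹' {t})

end

end Pool.Agent.Helper47.Ext
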