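import Mathlib
import Pool.Agent.Helper47.Ext.Charts

set_option autoImplicit false

namespace Pool.Agent.Helper47.Ext

open scoped Manifold ContDiff Topology ComplexConjugate
open Set Metric Filter

lemma chartAt_eq (P : XT) : chartAt E3 P = (chAt P).chart := rfl

lemma ext_chart (P : XT) : ∃ c, IsCD c ∧ P ∈ c.chart.source ∧ extChartAt 𝓘(ℂ, E3) P = c.chart.toPartialEquiv ∧
    extChartAt 𝓘(ℝ, E3) P = c.chart.toPartialEquiv := by
  refine ⟨chAt P, chAt_isCD P, mem_chAt P, ?_, ?_⟩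
  · rw [extChartAt, chartAt_eq]; simp
  · rw [extChartAt, chartAt_eq]; simp

lemma contMDiffAt_of_charts {f : XT → ℂ} {P : XT} (h : ContinuousAt f P)
    (h2 : ∀ c : CD, P ∈ c.chart.source → ContDiffAt ℂ ω (f ∘ c.chart.symm) (c.chart P)) :
    ContMDiffAt 𝓘(ℂ, E3) 𝓘(ℂ, ℂ) ω f P := by
  rw [contMDiffAt_iff]
  refine ⟨h, ?_⟩
  obtain ⟨c, -, hc, he, -⟩ := ext_chart P
  rw [he]
  simp only [extChartAt_self_eq, modelWithCornersSelf_coe, range_id]
  exact (h2 c hc).contDiffWithinAt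

lemma source_nhds {c : CD} {P : XT} (hP : P ∈ c.chart.source) :
    ∀ᶠ u in 𝓝 (c.chart P), ‖u.2.2‖ < 1 :=
  c.chart.open_target.mem_nhds (c.chart.map_source hP)

lemma target_norm {c : CD} {P : XT} (hP : P ∈ c.chart.source) : ‖(c.chart P).2.2‖ < 1 :=
  c.chart.map_source hP

lemma xx_ne {c : CD} {P : XT} (hP : P ∈ c.chart.source) {i : Fin 2} {k : Fin 3}
    (hPU : P ∈ US i k) : c.xx (c.chart P) i ≠ 0 ∧ c.yy (c.chart P) k ≠ 0 := by
  rw [← c.symm_mem (target_norm hP), c.chart.left_inv hP]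
  exact hPU

lemma contMDiffAt_Xc (a i : Fin 2) (k : Fin 3) {P : XT} (hP : P ∈ US i k) :
    ContMDiffAt 𝓘(ℂ, E3) 𝓘(ℂ, ℂ) ω (Xc a i) P := by
  refine contMDiffAt_of_charts ((continuousOn_Xc a i k).continuousAt ((isOpen_US i k).mem_nhds hP))
    (fun c hc => ?_)
  have h1 : ContDiffAt ℂ ω (fun u : E3 => c.xx u a / c.xx u i) (c.chart P) :=
    (c.cx a).contDiffAt.div (c.cx i).contDiffAt (xx_ne hc hP).1
  refine h1.congr_of_eventuallyEq ?_
  filter_upwards [source_nhds hc] with u hu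
  exact c.Xc_symm hu a i

lemma contMDiffAt_Yc (b k : Fin 3) (i : Fin 2) {P : XT} (hP : P ∈ US i k) :
    ContMDiffAt 𝓘(ℂ, E3) 𝓘(ℂ, ℂ) ω (Yc b k) P := by
  refine contMDiffAt_of_charts ((continuousOn_Yc b k i).continuousAt ((isOpen_US i k).mem_nhds hP))
    (fun c hc => ?_)
  have h1 : ContDiffAt ℂ ω (fun u : E3 => c.yy u b / c.yy u k) (c.chart P) :=
    (c.cy b).contDiffAt.div (c.cy k).contDiffAt (xx_ne hc hP).2
  refine h1.congr_of_eventuallyEq ?_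
  filter_upwards [source_nhds hc] with u hu
  exact c.Yc_symm hu b k

lemma contMDiff_tc : ContMDiff 𝓘(ℂ, E3) 𝓘(ℂ, ℂ) ω tc := by
  intro P
  refine contMDiffAt_of_charts continuous_tc.continuousAt (fun c hc => ?_)
  have h1 : ContDiffAt ℂ ω (fun u : E3 => u.2.2) (c.chart P) := by fun_prop
  refine h1.congr_of_eventuallyEq ?_
  filter_upwards [source_nhds hc] with u hu
  exact c.tc_symm hu

lemma hasMFDerivAt_tc (P : XT) : HasMFDerivAt 𝓘(ℂ, E3) 𝓘(ℂ, ℂ) tc P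
    ((ContinuousLinearMap.snd ℂ ℂ ℂ).comp (ContinuousLinearMap.snd ℂ ℂ (ℂ × ℂ))) := by
  obtain ⟨c, -, hc, he, -⟩ := ext_chart P
  refine ⟨continuous_tc.continuousAt, ?_⟩
  have hw : writtenInExtChartAt 𝓘(ℂ, E3) 𝓘(ℂ, ℂ) P tc = tc ∘ c.chart.symm := by
    unfold writtenInExtChartAt
    rw [he]
    simp only [extChartAt_self_eq]
    rfl
  rw [hw, he]
  simp only [modelWithCornersSelf_coe, range_id]
  have h2 : HasFDerivAt (fun u : E3 => u.2.2)
      ((ContinuousLinearMap.snd ℂ ℂ ℂ).comp (ContinuousLinearMap.snd ℂ ℂ (ℂ × ℂ)))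
      (c.chart P) :=
    ((ContinuousLinearMap.snd ℂ ℂ ℂ).comp (ContinuousLinearMap.snd ℂ ℂ (ℂ × ℂ))).hasFDerivAt
  have h3 : HasFDerivAt (tc ∘ c.chart.symm)
      ((ContinuousLinearMap.snd ℂ ℂ ℂ).comp (ContinuousLinearMap.snd ℂ ℂ (ℂ × ℂ)))
      (c.chart P) := by
    refine h2.congr_of_eventuallyEq ?_
    filter_upwards [source_nhds hc] with u hu
    exact c.tc_symm hu
  exact h3.hasFDerivWithinAt

lemma mfderiv_tc (P : XT) : Function.Surjective (mfderiv 𝓘(ℂ, E3) 𝓘(ℂ, ℂ) tc P) := by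
  rw [(hasMFDerivAt_tc P).mfderiv]
  intro z
  exact ⟨((0, 0, z) : E3), rfl⟩

/-- holomorphic curves from homogeneous coordinates -/
lemma mdiff_curve {x : ℂ → Fin 2 → ℂ} {y : ℂ → Fin 3 → ℂ} {t : ℂ → ℂ} {z₀ : ℂ}
    (hx : ∀ a, DifferentiableAt ℂ (fun z => x z a) z₀)
    (hy : ∀ b, DifferentiableAt ℂ (fun z => y z b) z₀) (ht : DifferentiableAt ℂ t z₀)
    (hg : ∀ z, Good (x z) (y z) (t z)) (hcont : Continuous fun z => pt (x z) (y z) (t z)) :
    MDifferentiableAt 𝓘(ℂ, ℂ) 𝓘(ℂ, E3) (fun z => pt (x z) (y z) (t z)) z₀ := by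
  rw [mdifferentiableAt_iff]
  refine ⟨hcont.continuousAt, ?_⟩
  obtain ⟨c, -, hc, he, -⟩ := ext_chart (pt (x z₀) (y z₀) (t z₀))
  rw [writtenInExtChartAt, he]
  simp only [extChartAt_self_eq, modelWithCornersSelf_coe, range_id, differentiableWithinAt_univ]
  have hne := (mem_US (hg z₀) _ _).1 hc
  have h1 : DifferentiableAt ℂ (fun z => ((x z c.a / x z c.i, y z c.b / y z c.k, t z) : E3)) z₀ :=
    ((hx _).div (hx _) hne.1).prodMk (((hy _).div (hy _) hne.2).prodMk ht)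
  refine h1.congr_of_eventuallyEq (Eventually.of_forall fun z => ?_)
  show (Xc c.a c.i (pt (x z) (y z) (t z)), Yc c.b c.k (pt (x z) (y z) (t z)),
    tc (pt (x z) (y z) (t z))) = _
  rw [Xc_pt (hg z), Yc_pt (hg z), tc_pt (hg z)]

end Pool.Agent.Helper47.Ext
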