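import Mathlib

set_option autoImplicit false

namespace Pool.Agent.Helper47.Ext

open scoped Topology ComplexConjugate InnerProductSpace
open Set Metric Filter

lemma second_dir {G : ℂ → ℝ} (hG : ContDiffAt ℝ 2 G 0) (v : ℂ) {φ : ℝ → ℝ} {d : ℝ}
    (h1 : ∀ᶠ s in 𝓝 (0 : ℝ), HasDerivAt (fun s : ℝ => G (s • v)) (φ s) s)
    (h2 : HasDerivAt φ d 0) : iteratedFDeriv ℝ 2 G 0 ![v, v] = d := by
  rw [iteratedFDeriv_two_apply]
  show fderiv ℝ (fderiv ℝ G) 0 v v = d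
  have hline : ∀ s : ℝ, HasDerivAt (fun s : ℝ => s • v) v s := by
    intro s
    have := (hasDerivAt_id s).smul_const v
    simpa using this
  have hl0 : (0 : ℝ) • v = 0 := zero_smul _ _
  have hT : HasFDerivAt (fderiv ℝ G) (fderiv ℝ (fderiv ℝ G) 0) 0 := by
    have h3 : ContDiffAt ℝ 1 (fderiv ℝ G) 0 := hG.fderiv_right (by norm_num)
    exact (h3.differentiableAt (by norm_num)).hasFDerivAt
  have hT' : HasDerivAt (fun s : ℝ => fderiv ℝ G (s • v)) (fderiv ℝ (fderiv ℝ G) 0 v) 0 := by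
    have h4 : HasFDerivAt (fderiv ℝ G) (fderiv ℝ (fderiv ℝ G) 0) ((0 : ℝ) • v) := by
      rw [hl0]; exact hT
    exact h4.comp_hasDerivAt 0 (hline 0)
  have hT2 : HasDerivAt (fun s : ℝ => fderiv ℝ G (s • v) v) (fderiv ℝ (fderiv ℝ G) 0 v v) 0 := by
    have := hT'.clm_apply (hasDerivAt_const (0 : ℝ) v)
    simpa using this
  have hdiff : ∀ᶠ z in 𝓝 (0 : ℂ), DifferentiableAt ℝ G z := by
    have h5 := hG.eventually (by simp)
    filter_upwards [h5] with z hz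
    exact hz.differentiableAt (by norm_num)
  have htend : Tendsto (fun s : ℝ => s • v) (𝓝 0) (𝓝 0) := by
    have := (hline 0).continuousAt.tendsto
    simpa using this
  have heq : φ =ᶠ[𝓝 0] fun s : ℝ => fderiv ℝ G (s • v) v := by
    filter_upwards [h1, htend.eventually hdiff] with s hs1 hs2
    have h6 : HasDerivAt (fun s : ℝ => G (s • v)) (fderiv ℝ G (s • v) v) s :=
      hs2.hasFDerivAt.comp_hasDerivAt s (hline s)
    exact hs1.unique h6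
  exact hT2.unique (h2.congr_of_eventuallyEq heq.symm)

variable {n : ℕ}

lemma contDiffAt_logsum {f : Fin n → ℂ → ℂ} {z : ℂ} (hf : ∀ a, AnalyticAt ℂ (f a) z)
    (hpos : 0 < ∑ a, ‖f a z‖ ^ 2) :
    ContDiffAt ℝ 2 (fun z => Real.log (∑ a, ‖f a z‖ ^ 2)) z := by
  have h1 : ContDiffAt ℝ 2 (fun z => ∑ a, ‖f a z‖ ^ 2) z := by
    apply ContDiffAt.sum
    intro a _
    have h2 : ContDiffAt ℝ 2 (f a) z := (hf a).contDiffAt.restrict_scalars ℝ
    exact h2.norm_sq ℝ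
  exact h1.log hpos.ne'

lemma laplacian_logsum {f : Fin n → ℂ → ℂ} (hf : ∀ a, AnalyticAt ℂ (f a) 0)
    (hpos : 0 < ∑ a, ‖f a 0‖ ^ 2) :
    Laplacian.laplacian (fun z => Real.log (∑ a, ‖f a z‖ ^ 2)) (0 : ℂ) =
      4 * ((∑ a, ‖f a 0‖ ^ 2) * (∑ a, ‖deriv (f a) 0‖ ^ 2) -
        ‖∑ a, conj (f a 0) * deriv (f a) 0‖ ^ 2) / (∑ a, ‖f a 0‖ ^ 2) ^ 2 := by
  have hG := contDiffAt_logsum hf hpos
  have hev : ∀ᶠ z in 𝓝 (0 : ℂ), (∀ a, AnalyticAt ℂ (f a) z) ∧ 0 < ∑ a, ‖f a z‖ ^ 2 := by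
    have h1 : ∀ᶠ z in 𝓝 (0 : ℂ), ∀ a, AnalyticAt ℂ (f a) z :=
      eventually_all.2 fun a => (hf a).eventually_analyticAt
    have h2 : ∀ᶠ z in 𝓝 (0 : ℂ), 0 < ∑ a, ‖f a z‖ ^ 2 := by
      have hc : ContinuousAt (fun z => ∑ a, ‖f a z‖ ^ 2) 0 := by
        apply tendsto_finsetSum
        intro a _
        exact ((hf a).continuousAt.norm).pow 2
      exact hc.eventually (lt_mem_nhds hpos)
    exact h1.and h2
  -- directional computation
  have key : ∀ v : ℂ, iteratedFDeriv ℝ 2 (fun z => Real.log (∑ a, ‖f a z‖ ^ 2)) 0 ![v, v] =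
      ((∑ a, 2 * (⟪deriv (f a) 0 * v, deriv (f a) 0 * v⟫_ℝ +
          ⟪f a 0, deriv (deriv (f a)) 0 * v * v⟫_ℝ)) * (∑ a, ‖f a 0‖ ^ 2) -
        (∑ a, 2 * ⟪f a 0, deriv (f a) 0 * v⟫_ℝ) * (∑ a, 2 * ⟪f a 0, deriv (f a) 0 * v⟫_ℝ)) /
        (∑ a, ‖f a 0‖ ^ 2) ^ 2 := by
    intro v
    have hline : ∀ s : ℝ, HasDerivAt (fun s : ℝ => s • v) v s := by
      intro s
      have := (hasDerivAt_id s).smul_const v
      simpa using this
    have htend : Tendsto (fun s : ℝ => s • v) (𝓝 0) (𝓝 0) := by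
      have := (hline 0).continuousAt.tendsto
      simpa using this
    -- derivative of compositions
    have hcomp : ∀ {g : ℂ → ℂ} {s : ℝ}, AnalyticAt ℂ g (s • v) →
        HasDerivAt (fun s : ℝ => g (s • v)) (deriv g (s • v) * v) s := by
      intro g s hg
      have h3 : HasFDerivAt g ((ContinuousLinearMap.toSpanSingleton ℂ (deriv g (s • v))).restrictScalars ℝ) (s • v) :=
        (hg.differentiableAt.hasDerivAt.hasFDerivAt).restrictScalars ℝ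
      have h4 := h3.comp_hasDerivAt s (hline s)
      refine HasDerivAt.congr_deriv h4 ?_
      show v • deriv g (s • v) = deriv g (s • v) * v
      rw [smul_eq_mul, mul_comm]
    have hsq : ∀ {s : ℝ}, (∀ a, AnalyticAt ℂ (f a) (s • v)) →
        HasDerivAt (fun s : ℝ => ∑ a, ‖f a (s • v)‖ ^ 2)
          (∑ a, 2 * ⟪f a (s • v), deriv (f a) (s • v) * v⟫_ℝ) s := by
      intro s hs
      apply HasDerivAt.fun_sum
      intro a _
      have h5 := (hcomp (hs a)).norm_sq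
      exact h5
    have e1 : ∀ᶠ s in 𝓝 (0 : ℝ), HasDerivAt (fun s : ℝ => Real.log (∑ a, ‖f a (s • v)‖ ^ 2))
        ((∑ a, 2 * ⟪f a (s • v), deriv (f a) (s • v) * v⟫_ℝ) / (∑ a, ‖f a (s • v)‖ ^ 2)) s := by
      filter_upwards [htend.eventually hev] with s hs
      exact (hsq hs.1).log hs.2.ne'
    have e2 : HasDerivAt (fun s : ℝ => (∑ a, 2 * ⟪f a (s • v), deriv (f a) (s • v) * v⟫_ℝ) /
        (∑ a, ‖f a (s • v)‖ ^ 2))
        (((∑ a, 2 * (⟪deriv (f a) 0 * v, deriv (f a) 0 * v⟫_ℝ +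
          ⟪f a 0, deriv (deriv (f a)) 0 * v * v⟫_ℝ)) * (∑ a, ‖f a 0‖ ^ 2) -
        (∑ a, 2 * ⟪f a 0, deriv (f a) 0 * v⟫_ℝ) * (∑ a, 2 * ⟪f a 0, deriv (f a) 0 * v⟫_ℝ)) /
        (∑ a, ‖f a 0‖ ^ 2) ^ 2) 0 := by
      have hz : (0 : ℝ) • v = 0 := zero_smul _ _
      have hf0 : ∀ a, AnalyticAt ℂ (f a) ((0 : ℝ) • v) := by rw [hz]; exact hf
      have hd0 : ∀ a, AnalyticAt ℂ (deriv (f a)) ((0 : ℝ) • v) := fun a => (hf0 a).deriv
      have h6 : HasDerivAt (fun s : ℝ => ∑ a, 2 * ⟪f a (s • v), deriv (f a) (s • v) * v⟫_ℝ)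
          (∑ a, 2 * (⟪deriv (f a) 0 * v, deriv (f a) 0 * v⟫_ℝ +
            ⟪f a 0, deriv (deriv (f a)) 0 * v * v⟫_ℝ)) 0 := by
        apply HasDerivAt.fun_sum
        intro a _
        have h7 := hcomp (hf0 a)
        have h8 := (hcomp (hd0 a)).mul_const v
        have h9 := (h7.inner ℝ h8).const_mul 2
        simp only [hz] at h9
        refine HasDerivAt.congr_deriv h9 ?_
        ring
      have h10 := hsq hf0
      have h11 := h6.div h10 (by simp only [hz]; exact hpos.ne')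
      simp only [hz] at h11
      exact h11
    exact second_dir hG v e1 e2
  rw [InnerProductSpace.laplacian_eq_iteratedFDeriv_complexPlane]
  show iteratedFDeriv ℝ 2 (fun z => Real.log (∑ a, ‖f a z‖ ^ 2)) 0 ![1, 1] +
    iteratedFDeriv ℝ 2 (fun z => Real.log (∑ a, ‖f a z‖ ^ 2)) 0 ![Complex.I, Complex.I] = _
  rw [key, key, ← add_div]
  congr 1
  set g := ∑ a, ‖f a 0‖ ^ 2 with hg
  set Pz : ℂ := ∑ a, conj (f a 0) * deriv (f a) 0 with hPz
  have hin : ∀ w z : ℂ, ⟪w, z⟫_ℝ = (conj w * z).re := by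
    intro w z
    simp [Complex.inner]
    ring
  have hs1 : ∑ a, 2 * ⟪f a 0, deriv (f a) 0 * (1 : ℂ)⟫_ℝ = 2 * Pz.re := by
    rw [hPz, Complex.re_sum, Finset.mul_sum]
    refine Finset.sum_congr rfl fun a _ => ?_
    rw [hin, mul_one]
  have hs2 : ∑ a, 2 * ⟪f a 0, deriv (f a) 0 * Complex.I⟫_ℝ = -2 * Pz.im := by
    rw [hPz, Complex.im_sum, Finset.mul_sum]
    refine Finset.sum_congr rfl fun a _ => ?_
    rw [hin]
    simp
    ring
  have hs3 : (∑ a, 2 * (⟪deriv (f a) 0 * (1 : ℂ), deriv (f a) 0 * 1⟫_ℝ +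
          ⟪f a 0, deriv (deriv (f a)) 0 * 1 * 1⟫_ℝ)) +
      (∑ a, 2 * (⟪deriv (f a) 0 * Complex.I, deriv (f a) 0 * Complex.I⟫_ℝ +
          ⟪f a 0, deriv (deriv (f a)) 0 * Complex.I * Complex.I⟫_ℝ)) =
      4 * ∑ a, ‖deriv (f a) 0‖ ^ 2 := by
    rw [← Finset.sum_add_distrib, Finset.mul_sum]
    refine Finset.sum_congr rfl fun a _ => ?_
    rw [hin, hin, hin, hin, ← Complex.normSq_eq_norm_sq, Complex.normSq_apply]
    simp
    ring
  rw [hs1, hs2]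
  have hP2 : ‖Pz‖ ^ 2 = Pz.re ^ 2 + Pz.im ^ 2 := by
    rw [← Complex.normSq_eq_norm_sq, Complex.normSq_apply]; ring
  rw [hP2]
  linear_combination g * hs3

end Pool.Agent.Helper47.Ext
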