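import Mathlib
import Pool.Agent.Helper47.Ext.Defs

set_option autoImplicit false

namespace Pool.Agent.Helper47.Ext

open scoped Manifold ContDiff Topology
open Set Metric Filter

/-- extended logarithm of the absolute value -/
noncomputable def elog (z : ℂ) : EReal := ENNReal.log ‖z‖ₑ

lemma continuous_elog : Continuous elog := ENNReal.continuous_log.comp continuous_enorm

lemma elog_of_ne {z : ℂ} (hz : z ≠ 0) : elog z = ((Real.log ‖z‖ : ℝ) : EReal) := by
  have h : 0 < ‖z‖ := norm_pos_iff.2 hz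
  rw [elog, ← ofReal_norm, ENNReal.log_ofReal_of_pos h]

lemma elog_zero : elog 0 = ⊥ := by simp [elog]

lemma elog_eq_bot {z : ℂ} : elog z = ⊥ ↔ z = 0 := by simp [elog]

lemma elog_lt_top (z : ℂ) : elog z < ⊤ := by simp [elog]

lemma elog_mul (a b : ℂ) : elog (a * b) = elog a + elog b := by
  rw [elog, enorm_mul, ENNReal.log_mul_add]; rfl

lemma jensen_le {F : ℂ → ℂ} {R : ℝ} (hR : 1 < R) (hF : DifferentiableOn ℂ F (ball 0 R))
    (h0 : F 0 ≠ 0) : Real.log ‖F 0‖ ≤ Real.circleAverage (fun z => Real.log ‖F z‖) 0 1 := by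
  have hA : AnalyticOnNhd ℂ F (ball 0 R) := hF.analyticOnNhd isOpen_ball
  have hsub : closedBall (0 : ℂ) |1| ⊆ ball 0 R := by
    intro z hz
    rw [abs_one, mem_closedBall] at hz
    rw [mem_ball]; linarith
  have hA1 : AnalyticOnNhd ℂ F (closedBall 0 |1|) := hA.mono hsub
  have h := hA1.circleAverage_log_norm one_ne_zero h0
  rw [h]
  have hnn : 0 ≤ ∑ᶠ u, ((MeromorphicOn.divisor F (closedBall 0 |1|)) u : ℝ) *
      Real.log (1 * ‖(0 : ℂ) - u‖⁻¹) := by
    apply finsum_nonneg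
    intro u
    by_cases hu : u ∈ closedBall (0 : ℂ) |1|
    · refine mul_nonneg (mod_cast MeromorphicOn.AnalyticOnNhd.divisor_nonneg hA1 u) ?_
      rw [one_mul, zero_sub, norm_neg, Real.log_inv]
      rw [abs_one, mem_closedBall, dist_zero_right] at hu
      have := Real.log_nonpos (norm_nonneg u) hu
      linarith
    · rw [Function.locallyFinsuppWithin.apply_eq_zero_of_notMem _ hu]; simp
  linarith

lemma elog_submean {F : ℂ → ℂ} {R : ℝ} (hR : 1 < R) (hF : DifferentiableOn ℂ F (ball 0 R))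
    {u : ℂ → ℝ} (hu : ContinuousOn u (sphere 0 1)) (h : ∀ z ∈ sphere (0 : ℂ) 1, elog (F z) ≤ (u z : EReal)) :
    elog (F 0) ≤ ((Real.circleAverage u 0 1 : ℝ) : EReal) := by
  by_cases h0 : F 0 = 0
  · rw [h0, elog_zero]; exact bot_le
  rw [elog_of_ne h0]
  have h1 := jensen_le hR hF h0
  have hA : AnalyticOnNhd ℂ F (ball 0 R) := hF.analyticOnNhd isOpen_ball
  have hsub : sphere (0 : ℂ) |1| ⊆ ball 0 R := by
    intro z hz
    rw [abs_one, mem_sphere] at hz
    rw [mem_ball]; linarith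
  have hne : ∀ᶠ z in codiscreteWithin (sphere (0 : ℂ) |1|), F z ≠ 0 := by
    rcases hA.eqOn_zero_or_eventually_ne_zero_of_preconnected (convex_ball _ _).isPreconnected with h2 | h2
    · exact absurd (h2 (mem_ball_self (by linarith))) h0
    · exact codiscreteWithin_mono hsub h2
  let g : ℂ → ℝ := fun z => if F z = 0 then u z else Real.log ‖F z‖
  have hg : (fun z => Real.log ‖F z‖) =ᶠ[codiscreteWithin (sphere (0 : ℂ) |1|)] g := by
    filter_upwards [hne] with z hz
    simp only [g, if_neg hz]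
  have hint : CircleIntegrable (fun z => Real.log ‖F z‖) 0 1 :=
    (hA.mono hsub).meromorphicOn.circleIntegrable_log_norm
  have hint' : CircleIntegrable g 0 1 := hint.congr_codiscreteWithin hg
  rw [Real.circleAverage_congr_codiscreteWithin hg one_ne_zero] at h1
  have h3 : Real.circleAverage g 0 1 ≤ Real.circleAverage u 0 1 := by
    refine Real.circleAverage_mono hint' (hu.circleIntegrable zero_le_one) ?_
    intro z hz
    rw [abs_one] at hz
    simp only [g]
    split_ifs with h4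
    · exact le_rfl
    · have := h z hz
      rw [elog_of_ne h4] at this
      exact_mod_cast this
  exact_mod_cast h1.trans h3

variable {E : Type} [NormedAddCommGroup E] [NormedSpace ℂ E]
  {M : Type} [TopologicalSpace M] [ChartedSpace E M]

lemma exists_bigger {U : Set M} (hU : IsOpen U) {γ : ℂ → M} {S : Set M} (hSU : S ⊆ U)
    (hγ : IsDisc E S γ) : ∃ R : ℝ, 1 < R ∧ (∀ z ∈ ball (0 : ℂ) R, γ z ∈ U) ∧
      (∀ z ∈ ball (0 : ℂ) R, MDifferentiableAt 𝓘(ℂ, ℂ) 𝓘(ℂ, E) γ z) := by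
  obtain ⟨⟨R, hR, hd⟩, hm⟩ := hγ
  have hd' : ∀ z ∈ ball (0 : ℂ) R, MDifferentiableAt 𝓘(ℂ, ℂ) 𝓘(ℂ, E) γ z :=
    fun z hz => (hd z hz).mdifferentiableAt (isOpen_ball.mem_nhds hz)
  have hcont : ContinuousOn γ (ball (0 : ℂ) R) := fun z hz => (hd' z hz).continuousAt.continuousWithinAt
  have hO : IsOpen (ball (0 : ℂ) R ∩ γ ⁻¹' U) := hcont.isOpen_inter_preimage isOpen_ball hU
  have hsub : closedBall (0 : ℂ) 1 ⊆ ball (0 : ℂ) R ∩ γ ⁻¹' U := by
    intro z hz
    refine ⟨?_, hSU (hm hz)⟩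
    rw [mem_closedBall] at hz
    rw [mem_ball]; linarith
  obtain ⟨δ, hδ, hth⟩ := (isCompact_closedBall (0 : ℂ) 1).exists_thickening_subset_open hO hsub
  rw [thickening_closedBall hδ zero_le_one] at hth
  exact ⟨δ + 1, by linarith, fun z hz => (hth hz).2, fun z hz => hd' z (hth hz).1⟩

lemma isPsh_elog {S U : Set M} {G : M → ℂ} (hU : IsOpen U) (hSU : S ⊆ U)
    (hG : ∀ x ∈ U, MDifferentiableAt 𝓘(ℂ, E) 𝓘(ℂ, ℂ) G x)
    (hn : ∀ W : Set M, IsOpen W → (W ∩ S).Nonempty → ∃ x ∈ W ∩ S, G x ≠ 0) :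
    IsPsh E S (fun x => elog (G x)) where
  usc := by
    have hc : ContinuousOn G S := fun x hx => (hG x (hSU hx)).continuousAt.continuousWithinAt
    exact (continuous_elog.comp_continuousOn hc).upperSemicontinuousOn
  lt_top x _ := elog_lt_top _
  submean γ hγ u hu h := by
    obtain ⟨R, hR, h1, h2⟩ := exists_bigger hU hSU hγ
    refine elog_submean (F := G ∘ γ) hR (fun z hz => ?_) hu h
    have h3 : MDifferentiableAt 𝓘(ℂ, ℂ) 𝓘(ℂ, ℂ) (G ∘ γ) z :=
      (hG (γ z) (h1 z hz)).comp z (h2 z hz)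
    exact h3.differentiableAt.differentiableWithinAt
  nontrivial W hW hne := by
    obtain ⟨x, hx, hGx⟩ := hn W hW hne
    exact ⟨x, hx, fun hb => hGx (elog_eq_bot.1 hb)⟩

end Pool.Agent.Helper47.Ext
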