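import Mathlib
import Pool.Agent.Helper47.Ext.Lap
import Pool.Agent.Helper47.Ext.Hol
import Pool.Agent.Helper47.Ext.Psh

set_option autoImplicit false

namespace Pool.Agent.Helper47.Ext

open scoped Manifold ContDiff Topology ComplexConjugate InnerProductSpace
open Set Metric Filter

lemma num_ge {n : ℕ} {f g : Fin n → ℂ} {i : Fin n} (hf : f i = 1) (hg : g i = 0) :
    ∑ a, ‖g a‖ ^ 2 ≤ (∑ a, ‖f a‖ ^ 2) * (∑ a, ‖g a‖ ^ 2) - ‖∑ a, conj (f a) * g a‖ ^ 2 := by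
  classical
  have h1 : ‖∑ a, conj (f a) * g a‖ ≤ ∑ a ∈ Finset.univ.erase i, ‖f a‖ * ‖g a‖ := by
    refine (norm_sum_le _ _).trans ?_
    rw [← Finset.add_sum_erase _ _ (Finset.mem_univ i), hg]
    simp
  have h2 : (∑ a ∈ Finset.univ.erase i, ‖f a‖ * ‖g a‖) ^ 2 ≤
      (∑ a ∈ Finset.univ.erase i, ‖f a‖ ^ 2) * (∑ a ∈ Finset.univ.erase i, ‖g a‖ ^ 2) :=
    Finset.sum_mul_sq_le_sq_mul_sq _ _ _
  have h3 : ∑ a, ‖f a‖ ^ 2 = 1 + ∑ a ∈ Finset.univ.erase i, ‖f a‖ ^ 2 := by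
    rw [← Finset.add_sum_erase _ _ (Finset.mem_univ i), hf]; simp
  have h4 : ∑ a, ‖g a‖ ^ 2 = ∑ a ∈ Finset.univ.erase i, ‖g a‖ ^ 2 := by
    rw [← Finset.add_sum_erase _ _ (Finset.mem_univ i), hg]; simp
  have h5 : ‖∑ a, conj (f a) * g a‖ ^ 2 ≤ (∑ a ∈ Finset.univ.erase i, ‖f a‖ * ‖g a‖) ^ 2 :=
    pow_le_pow_left₀ (norm_nonneg _) h1 2
  rw [h3, h4]
  nlinarith

lemma sum_pos_one {n : ℕ} {f : Fin n → ℂ} {i : Fin n} (hf : f i = 1) : 0 < ∑ a, ‖f a‖ ^ 2 := by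
  refine Finset.sum_pos' (fun _ _ => sq_nonneg _) ⟨i, Finset.mem_univ _, ?_⟩
  rw [hf]; simp

lemma lap_nonneg {n : ℕ} {f : Fin n → ℂ → ℂ} {i : Fin n} (hf : ∀ a, AnalyticAt ℂ (f a) 0)
    (hi : f i =ᶠ[𝓝 0] fun _ => 1) :
    (∑ a, ‖deriv (f a) 0‖ ^ 2) * (4 / (∑ a, ‖f a 0‖ ^ 2) ^ 2) ≤
      Laplacian.laplacian (fun z => Real.log (∑ a, ‖f a z‖ ^ 2)) (0 : ℂ) := by
  have h1 : f i 0 = 1 := hi.eq_of_nhds
  have h2 : deriv (f i) 0 = 0 := by rw [hi.deriv_eq]; simp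
  have hpos := sum_pos_one (f := fun a => f a 0) h1
  rw [laplacian_logsum hf hpos]
  have h3 := num_ge (f := fun a => f a 0) (g := fun a => deriv (f a) 0) h1 h2
  rw [mul_div_assoc', div_le_div_iff_of_pos_right (by positivity)]
  linarith

lemma lap_single {f : ℂ → ℂ} (hf : AnalyticAt ℂ f 0) (h0 : f 0 ≠ 0) :
    Laplacian.laplacian (fun z => Real.log (‖f z‖ ^ 2)) (0 : ℂ) = 0 := by
  have h := laplacian_logsum (n := 1) (f := fun _ => f) (fun _ => hf)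
    (by simp only [Finset.univ_unique, Finset.sum_singleton]; positivity)
  simp only [Finset.univ_unique, Finset.sum_singleton, norm_mul, RCLike.norm_conj] at h
  rw [h]
  ring

lemma Xc_change {P : XT} {i : Fin 2} {k : Fin 3} (hP : P ∈ US i k) (a i' : Fin 2) :
    Xc a i' P = Xc a i P / Xc i' i P := by
  obtain ⟨x, y, t, hg, rfl⟩ := exists_rep P
  obtain ⟨hxi, -⟩ := (mem_US hg i k).1 hP
  rw [Xc_pt hg, Xc_pt hg, Xc_pt hg, div_div_div_cancel_right₀ hxi]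

lemma Yc_change {P : XT} {i : Fin 2} {k : Fin 3} (hP : P ∈ US i k) (b k' : Fin 3) :
    Yc b k' P = Yc b k P / Yc k' k P := by
  obtain ⟨x, y, t, hg, rfl⟩ := exists_rep P
  obtain ⟨-, hyk⟩ := (mem_US hg i k).1 hP
  rw [Yc_pt hg, Yc_pt hg, Yc_pt hg, div_div_div_cancel_right₀ hyk]

lemma Xc_ne {P : XT} {i : Fin 2} {k : Fin 3} (hP : P ∈ US i k) {i' : Fin 2} {k' : Fin 3}
    (hP' : P ∈ US i' k') : Xc i' i P ≠ 0 := by
  obtain ⟨x, y, t, hg, rfl⟩ := exists_rep P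
  obtain ⟨hxi, -⟩ := (mem_US hg i k).1 hP
  obtain ⟨hxi', -⟩ := (mem_US hg i' k').1 hP'
  rw [Xc_pt hg]
  exact div_ne_zero hxi' hxi

lemma Yc_ne {P : XT} {i : Fin 2} {k : Fin 3} (hP : P ∈ US i k) {i' : Fin 2} {k' : Fin 3}
    (hP' : P ∈ US i' k') : Yc k' k P ≠ 0 := by
  obtain ⟨x, y, t, hg, rfl⟩ := exists_rep P
  obtain ⟨-, hyk⟩ := (mem_US hg i k).1 hP
  obtain ⟨-, hyk'⟩ := (mem_US hg i' k').1 hP'
  rw [Yc_pt hg]
  exact div_ne_zero hyk' hyk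

lemma Xc_self {P : XT} {i : Fin 2} {k : Fin 3} (hP : P ∈ US i k) : Xc i i P = 1 :=
  (norm_rep hP).2.2.1

lemma Yc_self {P : XT} {i : Fin 2} {k : Fin 3} (hP : P ∈ US i k) : Yc k k P = 1 :=
  (norm_rep hP).2.2.2

/-- local potentials -/
noncomputable def rho (q : Fin 2 × Fin 3) (P : XT) : ℝ :=
  Real.log (∑ a, ‖Xc a q.1 P‖ ^ 2) + Real.log (∑ b, ‖Yc b q.2 P‖ ^ 2)

section disc

variable {i : Fin 2} {k : Fin 3} {γ : ℂ → XT} {S : Set XT}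

lemma disc_nbhd (hγ : IsDisc E3 (S ∩ US i k) γ) : ∃ R : ℝ, 1 < R ∧
    (∀ z ∈ ball (0 : ℂ) R, γ z ∈ US i k) ∧
    (∀ z ∈ ball (0 : ℂ) R, MDifferentiableAt 𝓘(ℂ, ℂ) 𝓘(ℂ, E3) γ z) :=
  exists_bigger (isOpen_US i k) inter_subset_right hγ

lemma disc_X (hγ : IsDisc E3 (S ∩ US i k) γ) (a : Fin 2) : AnalyticAt ℂ (fun z => Xc a i (γ z)) 0 := by
  obtain ⟨R, hR, h1, h2⟩ := disc_nbhd hγ
  have h3 : DifferentiableOn ℂ (fun z => Xc a i (γ z)) (ball 0 R) := by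
    intro z hz
    have h4 : MDifferentiableAt 𝓘(ℂ, E3) 𝓘(ℂ, ℂ) (Xc a i) (γ z) :=
      (contMDiffAt_Xc a i k (h1 z hz)).mdifferentiableAt (by simp)
    have h5 : MDifferentiableAt 𝓘(ℂ, ℂ) 𝓘(ℂ, ℂ) (Xc a i ∘ γ) z := h4.comp z (h2 z hz)
    exact h5.differentiableAt.differentiableWithinAt
  exact h3.analyticAt (ball_mem_nhds 0 (by linarith))

lemma disc_Y (hγ : IsDisc E3 (S ∩ US i k) γ) (b : Fin 3) : AnalyticAt ℂ (fun z => Yc b k (γ z)) 0 := by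
  obtain ⟨R, hR, h1, h2⟩ := disc_nbhd hγ
  have h3 : DifferentiableOn ℂ (fun z => Yc b k (γ z)) (ball 0 R) := by
    intro z hz
    have h4 : MDifferentiableAt 𝓘(ℂ, E3) 𝓘(ℂ, ℂ) (Yc b k) (γ z) :=
      (contMDiffAt_Yc b k i (h1 z hz)).mdifferentiableAt (by simp)
    have h5 : MDifferentiableAt 𝓘(ℂ, ℂ) 𝓘(ℂ, ℂ) (Yc b k ∘ γ) z := h4.comp z (h2 z hz)
    exact h5.differentiableAt.differentiableWithinAt
  exact h3.analyticAt (ball_mem_nhds 0 (by linarith))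

lemma disc_ev (hγ : IsDisc E3 (S ∩ US i k) γ) : ∀ᶠ z in 𝓝 (0 : ℂ), γ z ∈ US i k := by
  obtain ⟨R, hR, h1, h2⟩ := disc_nbhd hγ
  filter_upwards [ball_mem_nhds (0 : ℂ) (show 0 < R by linarith)] with z hz using h1 z hz

lemma disc_cd (hγ : IsDisc E3 (S ∩ US i k) γ) :
    ContDiffAt ℝ 2 (fun z => Real.log (∑ a, ‖Xc a i (γ z)‖ ^ 2)) 0 ∧
    ContDiffAt ℝ 2 (fun z => Real.log (∑ b, ‖Yc b k (γ z)‖ ^ 2)) 0 :=
  ⟨contDiffAt_logsum (f := fun a z => Xc a i (γ z)) (disc_X hγ)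
      (sum_pos_one (i := i) (Xc_self (disc_ev hγ).self_of_nhds)),
    contDiffAt_logsum (f := fun b z => Yc b k (γ z)) (disc_Y hγ)
      (sum_pos_one (i := k) (Yc_self (disc_ev hγ).self_of_nhds))⟩

lemma lap_rho (hγ : IsDisc E3 (S ∩ US i k) γ) :
    Laplacian.laplacian (rho (i, k) ∘ γ) (0 : ℂ) =
    Laplacian.laplacian (fun z => Real.log (∑ a, ‖Xc a i (γ z)‖ ^ 2)) (0 : ℂ) +
    Laplacian.laplacian (fun z => Real.log (∑ b, ‖Yc b k (γ z)‖ ^ 2)) (0 : ℂ) := by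
  obtain ⟨h1, h2⟩ := disc_cd hγ
  exact h1.laplacian_add h2

lemma lap_change (hγ : IsDisc E3 (S ∩ US i k) γ) {i' : Fin 2} {k' : Fin 3}
    (hγ' : IsDisc E3 (S ∩ US i' k') γ) :
    Laplacian.laplacian (rho (i, k) ∘ γ) (0 : ℂ) = Laplacian.laplacian (rho (i', k') ∘ γ) (0 : ℂ) := by
  rw [lap_rho hγ, lap_rho hγ']
  have hev := (disc_ev hγ).and (disc_ev hγ')
  have h0 := hev.self_of_nhds
  have hXe : (fun z => Real.log (∑ a, ‖Xc a i (γ z)‖ ^ 2)) =ᶠ[𝓝 0]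
      (fun z => Real.log (∑ a, ‖Xc a i' (γ z)‖ ^ 2)) + fun z => Real.log (‖Xc i' i (γ z)‖ ^ 2) := by
    filter_upwards [hev] with z hz
    have h1 : ∀ a, ‖Xc a i (γ z)‖ ^ 2 = ‖Xc i' i (γ z)‖ ^ 2 * ‖Xc a i' (γ z)‖ ^ 2 := by
      intro a
      have hne := Xc_ne hz.1 hz.2
      rw [Xc_change hz.1 a i', norm_div, div_pow]
      have : ‖Xc i' i (γ z)‖ ^ 2 ≠ 0 := by positivity
      field_simp
    have h2 : 0 < ∑ a, ‖Xc a i' (γ z)‖ ^ 2 := sum_pos_one (i := i') (Xc_self hz.2)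
    have h3 : ‖Xc i' i (γ z)‖ ^ 2 ≠ 0 := by
      have hne := Xc_ne hz.1 hz.2
      positivity
    show Real.log (∑ a, ‖Xc a i (γ z)‖ ^ 2) =
      Real.log (∑ a, ‖Xc a i' (γ z)‖ ^ 2) + Real.log (‖Xc i' i (γ z)‖ ^ 2)
    rw [Finset.sum_congr rfl fun a _ => h1 a, ← Finset.mul_sum, Real.log_mul h3 h2.ne', add_comm]
  have hYe : (fun z => Real.log (∑ a, ‖Yc a k (γ z)‖ ^ 2)) =ᶠ[𝓝 0]
      (fun z => Real.log (∑ a, ‖Yc a k' (γ z)‖ ^ 2)) + fun z => Real.log (‖Yc k' k (γ z)‖ ^ 2) := by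
    filter_upwards [hev] with z hz
    have h1 : ∀ a, ‖Yc a k (γ z)‖ ^ 2 = ‖Yc k' k (γ z)‖ ^ 2 * ‖Yc a k' (γ z)‖ ^ 2 := by
      intro a
      have hne := Yc_ne hz.1 hz.2
      rw [Yc_change hz.1 a k', norm_div, div_pow]
      have : ‖Yc k' k (γ z)‖ ^ 2 ≠ 0 := by positivity
      field_simp
    have h2 : 0 < ∑ a, ‖Yc a k' (γ z)‖ ^ 2 := sum_pos_one (i := k') (Yc_self hz.2)
    have h3 : ‖Yc k' k (γ z)‖ ^ 2 ≠ 0 := by
      have hne := Yc_ne hz.1 hz.2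
      positivity
    show Real.log (∑ a, ‖Yc a k (γ z)‖ ^ 2) =
      Real.log (∑ a, ‖Yc a k' (γ z)‖ ^ 2) + Real.log (‖Yc k' k (γ z)‖ ^ 2)
    rw [Finset.sum_congr rfl fun a _ => h1 a, ← Finset.mul_sum, Real.log_mul h3 h2.ne', add_comm]
  have hX1 := (InnerProductSpace.laplacian_congr_nhds hXe).self_of_nhds
  have hY1 := (InnerProductSpace.laplacian_congr_nhds hYe).self_of_nhds
  obtain ⟨c1, c2⟩ := disc_cd hγ'
  have hnX : Xc i' i (γ 0) ≠ 0 := Xc_ne h0.1 h0.2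
  have hnY : Yc k' k (γ 0) ≠ 0 := Yc_ne h0.1 h0.2
  have c3 : ContDiffAt ℝ 2 (fun z => Real.log (‖Xc i' i (γ z)‖ ^ 2)) 0 := by
    have h2 : ContDiffAt ℝ 2 (fun z => Xc i' i (γ z)) 0 := (disc_X hγ i').contDiffAt.restrict_scalars ℝ
    exact (h2.norm_sq ℝ).log (by positivity)
  have c4 : ContDiffAt ℝ 2 (fun z => Real.log (‖Yc k' k (γ z)‖ ^ 2)) 0 := by
    have h2 : ContDiffAt ℝ 2 (fun z => Yc k' k (γ z)) 0 := (disc_Y hγ k').contDiffAt.restrict_scalars ℝ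
    exact (h2.norm_sq ℝ).log (by positivity)
  rw [hX1, hY1, c1.laplacian_add c3, c2.laplacian_add c4, lap_single (disc_X hγ i') hnX,
    lap_single (disc_Y hγ k') hnY, add_zero, add_zero]

lemma disc_mfderiv {t : ℂ} (hγ : IsDisc E3 (tc ⁻¹' {t} ∩ US i k) γ)
    (hX : ∀ a, deriv (fun z => Xc a i (γ z)) 0 = 0) (hY : ∀ b, deriv (fun z => Yc b k (γ z)) 0 = 0) :
    mfderiv 𝓘(ℂ, ℂ) 𝓘(ℂ, E3) γ 0 = 0 := by
  obtain ⟨R, hR, h1, h2⟩ := disc_nbhd hγ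
  have h0 := h2 0 (mem_ball_self (by linarith))
  have hcont := h0.continuousAt
  obtain ⟨c, -, hc, he, -⟩ := ext_chart (γ 0)
  have hev := disc_ev hγ
  have hu0 := hev.self_of_nhds
  have hcU : γ 0 ∈ US c.i c.k := hc
  have htc : ∀ᶠ z in 𝓝 (0 : ℂ), tc (γ z) = t := by
    filter_upwards [closedBall_mem_nhds (0 : ℂ) one_pos] with z hz
    exact (hγ.2 hz).1
  have dX : HasDerivAt (fun z => Xc c.a c.i (γ z)) 0 0 := by
    have e1 : HasDerivAt (fun z => Xc c.a i (γ z)) 0 0 := by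
      have := (disc_X hγ c.a).differentiableAt.hasDerivAt
      rwa [hX c.a] at this
    have e2 : HasDerivAt (fun z => Xc c.i i (γ z)) 0 0 := by
      have := (disc_X hγ c.i).differentiableAt.hasDerivAt
      rwa [hX c.i] at this
    have e3 := e1.div e2 (Xc_ne hu0 hcU)
    rw [zero_mul, mul_zero, sub_zero, zero_div] at e3
    refine e3.congr_of_eventuallyEq ?_
    filter_upwards [hev] with z hz
    exact Xc_change hz c.a c.i
  have dY : HasDerivAt (fun z => Yc c.b c.k (γ z)) 0 0 := by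
    have e1 : HasDerivAt (fun z => Yc c.b k (γ z)) 0 0 := by
      have := (disc_Y hγ c.b).differentiableAt.hasDerivAt
      rwa [hY c.b] at this
    have e2 : HasDerivAt (fun z => Yc c.k k (γ z)) 0 0 := by
      have := (disc_Y hγ c.k).differentiableAt.hasDerivAt
      rwa [hY c.k] at this
    have e3 := e1.div e2 (Yc_ne hu0 hcU)
    rw [zero_mul, mul_zero, sub_zero, zero_div] at e3
    refine e3.congr_of_eventuallyEq ?_
    filter_upwards [hev] with z hz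
    exact Yc_change hz c.b c.k
  have dT : HasDerivAt (fun z => tc (γ z)) 0 0 := by
    refine (hasDerivAt_const (0 : ℂ) t).congr_of_eventuallyEq ?_
    filter_upwards [htc] with z hz using hz
  have hM : HasMFDerivAt 𝓘(ℂ, ℂ) 𝓘(ℂ, E3) γ 0 (0 : ℂ →L[ℂ] E3) := by
    refine ⟨hcont, ?_⟩
    have hw : writtenInExtChartAt 𝓘(ℂ, ℂ) 𝓘(ℂ, E3) 0 γ =
        fun z => ((Xc c.a c.i (γ z), Yc c.b c.k (γ z), tc (γ z)) : E3) := by
      unfold writtenInExtChartAt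
      rw [he]
      rfl
    rw [hw]
    have h3 : HasDerivAt (fun z => ((Xc c.a c.i (γ z), Yc c.b c.k (γ z), tc (γ z)) : E3))
        ((0, 0, 0) : E3) 0 := dX.prodMk (dY.prodMk dT)
    have h4 : HasFDerivAt (fun z => ((Xc c.a c.i (γ z), Yc c.b c.k (γ z), tc (γ z)) : E3))
        (0 : ℂ →L[ℂ] E3) 0 := by
      have h5 := h3.hasFDerivAt
      have h6 : ContinuousLinearMap.toSpanSingleton ℂ ((0, 0, 0) : E3) = (0 : ℂ →L[ℂ] E3) := by
        have : ((0, 0, 0) : E3) = 0 := rfl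
        rw [this]
        exact ContinuousLinearMap.toSpanSingleton_zero ℂ
      rwa [h6] at h5
    exact h4.hasFDerivWithinAt
  exact hM.mfderiv

lemma lap_pos {t : ℂ} (hγ : IsDisc E3 (tc ⁻¹' {t} ∩ US i k) γ)
    (hne : mfderiv 𝓘(ℂ, ℂ) 𝓘(ℂ, E3) γ 0 ≠ 0) :
    0 < Laplacian.laplacian (rho (i, k) ∘ γ) (0 : ℂ) := by
  rw [lap_rho hγ]
  have hev := disc_ev hγ
  have hX := lap_nonneg (f := fun a z => Xc a i (γ z)) (i := i) (disc_X hγ)
    (by filter_upwards [hev] with z hz using Xc_self hz)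
  have hY := lap_nonneg (f := fun b z => Yc b k (γ z)) (i := k) (disc_Y hγ)
    (by filter_upwards [hev] with z hz using Yc_self hz)
  have gX : 0 < 4 / (∑ a, ‖Xc a i (γ 0)‖ ^ 2) ^ 2 := by
    have := sum_pos_one (f := fun a => Xc a i (γ 0)) (i := i) (Xc_self hev.self_of_nhds)
    positivity
  have gY : 0 < 4 / (∑ b, ‖Yc b k (γ 0)‖ ^ 2) ^ 2 := by
    have := sum_pos_one (f := fun b => Yc b k (γ 0)) (i := k) (Yc_self hev.self_of_nhds)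
    positivity
  have sX : 0 ≤ ∑ a, ‖deriv (fun z => Xc a i (γ z)) 0‖ ^ 2 := by positivity
  have sY : 0 ≤ ∑ b, ‖deriv (fun z => Yc b k (γ z)) 0‖ ^ 2 := by positivity
  by_contra hcon
  have hcon' := not_lt.1 hcon
  apply hne
  have m1 := mul_nonneg sX gX.le
  have m2 := mul_nonneg sY gY.le
  have z1 : (∑ a, ‖deriv (fun z => Xc a i (γ z)) 0‖ ^ 2) * (4 / (∑ a, ‖Xc a i (γ 0)‖ ^ 2) ^ 2) = 0 := by
    linarith
  have z2 : (∑ b, ‖deriv (fun z => Yc b k (γ z)) 0‖ ^ 2) * (4 / (∑ b, ‖Yc b k (γ 0)‖ ^ 2) ^ 2) = 0 := by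
    linarith
  have y1 := (mul_eq_zero.1 z1).resolve_right gX.ne'
  have y2 := (mul_eq_zero.1 z2).resolve_right gY.ne'
  apply disc_mfderiv hγ
  · intro a
    have := (Finset.sum_eq_zero_iff_of_nonneg (fun _ _ => sq_nonneg _)).1 y1 a (Finset.mem_univ _)
    simpa using this
  · intro b
    have := (Finset.sum_eq_zero_iff_of_nonneg (fun _ _ => sq_nonneg _)).1 y2 b (Finset.mem_univ _)
    simpa using this

end disc

lemma smooth_rho (i : Fin 2) (k : Fin 3) : ContMDiffOn 𝓘(ℝ, E3) 𝓘(ℝ, ℝ) ∞ (rho (i, k)) (US i k) := by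
  intro P hP
  apply ContMDiffAt.contMDiffWithinAt
  have hnh := (isOpen_US i k).mem_nhds hP
  have hcX : ContinuousAt (fun P => ∑ a, ‖Xc a i P‖ ^ 2) P := by
    apply tendsto_finsetSum
    intro a _
    exact (((continuousOn_Xc a i k).continuousAt hnh).norm).pow 2
  have hcY : ContinuousAt (fun P => ∑ b, ‖Yc b k P‖ ^ 2) P := by
    apply tendsto_finsetSum
    intro b _
    exact (((continuousOn_Yc b k i).continuousAt hnh).norm).pow 2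
  have pX : 0 < ∑ a, ‖Xc a i P‖ ^ 2 := sum_pos_one (i := i) (Xc_self hP)
  have pY : 0 < ∑ b, ‖Yc b k P‖ ^ 2 := sum_pos_one (i := k) (Yc_self hP)
  rw [contMDiffAt_iff]
  refine ⟨(hcX.log pX.ne').add (hcY.log pY.ne'), ?_⟩
  obtain ⟨c, -, hc, -, he⟩ := ext_chart P
  rw [he]
  simp only [extChartAt_self_eq, modelWithCornersSelf_coe, range_id]
  obtain ⟨nx, ny⟩ := xx_ne hc hP
  have sX : ∀ a, ContDiffAt ℝ ∞ (fun u : E3 => c.xx u a / c.xx u i) (c.chart P) := by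
    intro a
    have h1 : ContDiffAt ℂ ω (fun u : E3 => c.xx u a / c.xx u i) (c.chart P) :=
      (c.cx a).contDiffAt.div (c.cx i).contDiffAt nx
    exact (h1.restrict_scalars ℝ).of_le (by exact_mod_cast le_top)
  have sY : ∀ b, ContDiffAt ℝ ∞ (fun u : E3 => c.yy u b / c.yy u k) (c.chart P) := by
    intro b
    have h1 : ContDiffAt ℂ ω (fun u : E3 => c.yy u b / c.yy u k) (c.chart P) :=
      (c.cy b).contDiffAt.div (c.cy k).contDiffAt ny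
    exact (h1.restrict_scalars ℝ).of_le (by exact_mod_cast le_top)
  have qX : 0 < ∑ a, ‖c.xx (c.chart P) a / c.xx (c.chart P) i‖ ^ 2 :=
    sum_pos_one (i := i) (div_self nx)
  have qY : 0 < ∑ b, ‖c.yy (c.chart P) b / c.yy (c.chart P) k‖ ^ 2 :=
    sum_pos_one (i := k) (div_self ny)
  have h1 : ContDiffAt ℝ ∞ (fun u : E3 => Real.log (∑ a, ‖c.xx u a / c.xx u i‖ ^ 2) +
      Real.log (∑ b, ‖c.yy u b / c.yy u k‖ ^ 2)) (c.chart P) := by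
    refine ContDiffAt.add (ContDiffAt.log ?_ qX.ne') (ContDiffAt.log ?_ qY.ne')
    · exact ContDiffAt.sum fun a _ => (sX a).norm_sq ℝ
    · exact ContDiffAt.sum fun b _ => (sY b).norm_sq ℝ
  have h2 : ContDiffAt ℝ ∞ (rho (i, k) ∘ c.chart.symm) (c.chart P) := by
    refine h1.congr_of_eventuallyEq ?_
    filter_upwards [source_nhds hc] with u hu
    show Real.log (∑ a, ‖Xc a i (c.chart.symm u)‖ ^ 2) +
      Real.log (∑ b, ‖Yc b k (c.chart.symm u)‖ ^ 2) = _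
    simp only [c.Xc_symm hu, c.Yc_symm hu]
  exact h2.contDiffWithinAt

lemma exists_US (P : XT) : ∃ q : Fin 2 × Fin 3, P ∈ US q.1 q.2 := by
  obtain ⟨c, -, hc⟩ := exists_chart P
  exact ⟨(c.i, c.k), hc⟩

lemma isKahler_fibre (t : ℂ) : IsKahler E3 (tc ⁻¹' {t}) := by
  refine ⟨Fin 2 × Fin 3, fun q => US q.1 q.2, rho, fun q => isOpen_US _ _,
    fun P _ => exists_US P, fun q => smooth_rho _ _, ?_, ?_⟩
  · intro q γ hγ hne
    exact lap_pos hγ hne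
  · intro q q' γ hγ
    refine lap_change (S := tc ⁻¹' {t}) ⟨hγ.1, fun z hz => ⟨(hγ.2 hz).1, (hγ.2 hz).2.1⟩⟩
      ⟨hγ.1, fun z hz => ⟨(hγ.2 hz).1, (hγ.2 hz).2.2⟩⟩

end Pool.Agent.Helper47.Ext
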