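import Mathlib
import Pool.Agent.Helper47.Ext.Kahler

set_option autoImplicit false

namespace Pool.Agent.Helper47.Ext

open scoped Manifold ContDiff Topology ComplexConjugate InnerProductSpace
open Set Metric Filter

/-- continuity of the incidence relation -/
lemma isClosed_rel : IsClosed {p : (Fin 2 → ℂ) × (Fin 3 → ℂ) × ℂ | Rel p.1 p.2.1 p.2.2} := by
  unfold Rel
  refine isClosed_eq ?_ ?_ <;> fun_prop

lemma proper_tc (K : Set ℂ) (hK : K ⊆ ball (0 : ℂ) 1) (hc : IsCompact K) :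
    IsCompact (tc ⁻¹' K) := by
  set C : Set ((Fin 2 → ℂ) × (Fin 3 → ℂ) × ℂ) :=
    (sphere (0 : Fin 2 → ℂ) 1 ×ˢ (sphere (0 : Fin 3 → ℂ) 1 ×ˢ K)) ∩
      {p | Rel p.1 p.2.1 p.2.2} with hC
  have hCc : IsCompact C :=
    ((isCompact_sphere _ _).prod ((isCompact_sphere _ _).prod hc)).inter_right isClosed_rel
  have hgood : ∀ p ∈ C, Good p.1 p.2.1 p.2.2 := by
    rintro ⟨x, y, t⟩ ⟨⟨hx, hy, ht⟩, hr⟩
    have hx' : ‖x‖ = 1 := by simpa using hx
    have hy' : ‖y‖ = 1 := by simpa using hy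
    refine ⟨?_, ?_, hr, ?_⟩
    · show x ≠ 0
      intro h
      rw [h, norm_zero] at hx'
      exact zero_ne_one hx'
    · show y ≠ 0
      intro h
      rw [h, norm_zero] at hy'
      exact zero_ne_one hy'
    · show ‖t‖ < 1
      have := hK ht
      simpa using this
  have himg : tc ⁻¹' K = (fun p : (Fin 2 → ℂ) × (Fin 3 → ℂ) × ℂ => pt p.1 p.2.1 p.2.2) '' C := by
    ext P
    constructor
    · intro hP
      obtain ⟨x, y, t, hg, rfl⟩ := exists_rep P
      have ht : t ∈ K := by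
        have : tc (pt x y t) ∈ K := hP
        rwa [tc_pt hg] at this
      have nx : ‖x‖ ≠ 0 := norm_ne_zero_iff.2 hg.1
      have ny : ‖y‖ ≠ 0 := norm_ne_zero_iff.2 hg.2.1
      have nx' : (‖x‖⁻¹ : ℂ) ≠ 0 := by exact_mod_cast inv_ne_zero nx
      have ny' : (‖y‖⁻¹ : ℂ) ≠ 0 := by exact_mod_cast inv_ne_zero ny
      refine ⟨((‖x‖⁻¹ : ℂ) • x, (‖y‖⁻¹ : ℂ) • y, t), ⟨⟨?_, ?_, ht⟩, hg.2.2.1.smul _ _⟩, ?_⟩
      · rw [mem_sphere, dist_zero_right, norm_smul, norm_inv, Complex.norm_real, norm_norm]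
        exact inv_mul_cancel₀ nx
      · show (‖y‖⁻¹ : ℂ) • y ∈ sphere (0 : Fin 3 → ℂ) 1
        rw [mem_sphere, dist_zero_right, norm_smul, norm_inv, Complex.norm_real, norm_norm]
        exact inv_mul_cancel₀ ny
      · exact pt_smul hg nx' ny'
    · rintro ⟨p, hp, rfl⟩
      show tc (pt p.1 p.2.1 p.2.2) ∈ K
      rw [tc_pt (hgood p hp)]
      exact hp.1.2.2
  rw [himg]
  refine hCc.image_of_continuousOn ?_
  exact continuousOn_pt continuousOn_fst (continuousOn_fst.comp continuousOn_snd (fun _ _ => mem_univ _))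
    (continuousOn_snd.comp continuousOn_snd (fun _ _ => mem_univ _)) hgood

/-- a point common to the four charts -/
noncomputable def star' (t : ℂ) : XT := pt ![1, 1] ![1, 1 + t, 1] t

lemma good_star {t : ℂ} (ht : ‖t‖ < 1) : Good ![1, 1] ![1, 1 + t, 1] t := by
  refine ⟨?_, ?_, ?_, ht⟩
  · intro h
    have := congrFun h 0
    simp at this
  · intro h
    have := congrFun h 0
    simp at this
  · simp [Rel]

lemma star_mem {t : ℂ} (ht : ‖t‖ < 1) {c : CD} (hc : IsCD c) : star' t ∈ c.chart.source := by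
  have h1 : (1 : ℂ) + t ≠ 0 := by
    intro h
    have : t = -1 := by linear_combination h
    rw [this] at ht
    simp at ht
  have h2 : ∀ (i : Fin 2) (k : Fin 3), star' t ∈ US i k := by
    intro i k
    rw [star', mem_US (good_star ht)]
    constructor
    · fin_cases i <;> simp
    · fin_cases k <;> simp [h1]
  exact h2 _ _

lemma connected_tc {t : ℂ} (ht : t ∈ ball (0 : ℂ) 1) : IsConnected (tc ⁻¹' {t}) := by
  have ht' : ‖t‖ < 1 := by simpa using ht
  have hst : tc (star' t) = t := tc_pt (good_star ht')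
  refine ⟨⟨star' t, hst⟩, ?_⟩
  refine isPreconnected_of_forall (star' t) (fun P hP => ?_)
  obtain ⟨c, hcd, hc⟩ := exists_chart P
  have hP' : tc P = t := hP
  refine ⟨c.chart.symm '' {u | u.2.2 = t}, ?_, ?_, ?_, ?_⟩
  · rintro _ ⟨u, hu, rfl⟩
    have hu' : u.2.2 = t := hu
    show tc (c.chart.symm u) = t
    rw [c.tc_symm (by rw [hu']; exact ht'), hu']
  · refine ⟨c.chart (star' t), ?_, c.chart.left_inv (star_mem ht' hcd)⟩
    show tc (star' t) = t
    exact hst
  · refine ⟨c.chart P, ?_, c.chart.left_inv hc⟩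
    show tc P = t
    exact hP'
  · refine IsPreconnected.image ?_ _ ?_
    · have : {u : E3 | u.2.2 = t} = univ ×ˢ (univ ×ˢ {t}) := by
        ext u; simp
      rw [this]
      exact isPreconnected_univ.prod (isPreconnected_univ.prod isPreconnected_singleton)
    · refine c.chart.continuousOn_symm.mono (fun u hu => ?_)
      have hu' : u.2.2 = t := hu
      show ‖u.2.2‖ < 1
      rw [hu']; exact ht'

theorem family : IsKahlerFamily E3 tc where
  mapsTo P := by
    have := norm_tc P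
    simpa using this
  hol := contMDiff_tc
  submersion := mfderiv_tc
  proper := proper_tc
  connected _ ht := connected_tc ht
  kahler t _ := isKahler_fibre t

/-- the transition functions of O(-1,1) -/
noncomputable def gg (q r : Fin 2 × Fin 3) (P : XT) : ℂ := Xc q.1 r.1 P * Yc r.2 q.2 P

lemma gg_eq {x : Fin 2 → ℂ} {y : Fin 3 → ℂ} {t : ℂ} (hg : Good x y t) (q r : Fin 2 × Fin 3) :
    gg q r (pt x y t) = (x q.1 / x r.1) * (y r.2 / y q.2) := by
  rw [gg, Xc_pt hg, Yc_pt hg]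

/-- the line bundle O(-1,1) -/
noncomputable def LL : LineBundle E3 XT where
  ι := Fin 2 × Fin 3
  U q := US q.1 q.2
  isOpen _ := isOpen_US _ _
  cover := exists_US
  g := gg
  hol q r P hP := by
    have h1 : MDifferentiableAt 𝓘(ℂ, E3) 𝓘(ℂ, ℂ) (Xc q.1 r.1) P :=
      (contMDiffAt_Xc q.1 r.1 r.2 hP.2).mdifferentiableAt (by simp)
    have h2 : MDifferentiableAt 𝓘(ℂ, E3) 𝓘(ℂ, ℂ) (Yc r.2 q.2) P :=
      (contMDiffAt_Yc r.2 q.2 q.1 hP.1).mdifferentiableAt (by simp)
    exact (h1.mul h2).mdifferentiableWithinAt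
  ne_zero q r P hP := mul_ne_zero (Xc_ne hP.2 hP.1) (Yc_ne hP.1 hP.2)
  cocycle q r s P hP := by
    obtain ⟨x, y, t, hg, rfl⟩ := exists_rep P
    obtain ⟨h1, h2⟩ := (mem_US hg _ _).1 hP.1.1
    obtain ⟨h3, h4⟩ := (mem_US hg _ _).1 hP.1.2
    obtain ⟨h5, h6⟩ := (mem_US hg _ _).1 hP.2
    rw [gg_eq hg, gg_eq hg, gg_eq hg]
    field_simp

end Pool.Agent.Helper47.Ext
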