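import Mathlib

set_option autoImplicit false

namespace Pool.Agent.Helper47.Ext

open scoped Topology
open Set Metric Filter

lemma circleAverage_lt {u : ℂ → ℝ} {m : ℝ} (hu : Continuous u) (hle : ∀ z, u z ≤ m) {b : ℂ}
    (hb : b ∈ sphere (0 : ℂ) 1) (hlt : u b < m) : Real.circleAverage u 0 1 < m := by
  have h1 : b ∈ circleMap 0 1 '' Ioc 0 (2 * Real.pi) := by
    rw [image_circleMap_Ioc, abs_one]; exact hb
  obtain ⟨θ, hθ, hθb⟩ := h1
  have hcm : Continuous (circleMap 0 1) := continuous_circleMap 0 1
  have h2 : ∫ θ in (0)..(2 * Real.pi), u (circleMap 0 1 θ) < ∫ θ in (0)..(2 * Real.pi), m := by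
    refine intervalIntegral.integral_lt_integral_of_continuousOn_of_le_of_exists_lt
      Real.two_pi_pos (hu.comp hcm).continuousOn continuousOn_const (fun x _ => hle _)
      ⟨θ, ⟨hθ.1.le, hθ.2⟩, ?_⟩
    show u (circleMap 0 1 θ) < m
    rw [hθb]; exact hlt
  rw [Real.circleAverage_def, smul_eq_mul]
  rw [intervalIntegral.integral_const, sub_zero, smul_eq_mul] at h2
  rw [inv_mul_lt_iff₀ Real.two_pi_pos]
  exact h2

/-- A subharmonic function on the plane that attains its maximum is constant. -/
lemma max_principle {f : ℂ → EReal} {m : EReal} (husc : UpperSemicontinuous f)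
    (hle : ∀ z, f z ≤ m) (hm : m < ⊤) (h0 : f 0 = m)
    (hsub : ∀ a, ∃ r0 : ℝ, 0 < r0 ∧ ∀ r : ℝ, 0 < r → r < r0 → ∀ u : ℂ → ℝ, Continuous u →
      (∀ z ∈ sphere (0 : ℂ) 1, f (a + r * z) ≤ (u z : EReal)) →
        f a ≤ ((Real.circleAverage u 0 1 : ℝ) : EReal)) (z : ℂ) : f z = m := by
  induction m using EReal.rec with
  | bot => exact le_bot_iff.1 (hle z)
  | top => exact absurd hm (lt_irrefl _)
  | coe m =>
    have hcl : IsClosed {z | f z = (m : EReal)} := by
      have h1 : {z | f z = (m : EReal)} = f ⁻¹' (Ici (m : EReal)) := by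
        ext z
        simp only [mem_ofPred_eq, mem_preimage, mem_Ici]
        exact ⟨fun h => h.ge, fun h => le_antisymm (hle z) h⟩
      rw [h1]
      exact husc.isClosed_preimage _
    have hop : IsOpen {z | f z = (m : EReal)} := by
      rw [Metric.isOpen_iff]
      intro a ha
      obtain ⟨r0, hr0, hr⟩ := hsub a
      refine ⟨r0, hr0, fun b hb => ?_⟩
      by_contra hne
      have hlt : f b < (m : EReal) := lt_of_le_of_ne (hle b) hne
      have hab : b ≠ a := fun h => hne (h ▸ ha)
      set r := ‖b - a‖ with hrdef
      have hrpos : 0 < r := norm_pos_iff.2 (sub_ne_zero.2 hab)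
      have hrlt : r < r0 := by rwa [mem_ball, dist_eq_norm] at hb
      obtain ⟨s, hs1, hs2⟩ := EReal.lt_iff_exists_real_btwn.1 hlt
      have hs2' : s < m := by exact_mod_cast hs2
      set c : ℂ := (b - a) / r with hc
      have hcs : c ∈ sphere (0 : ℂ) 1 := by
        rw [mem_sphere, dist_zero_right, hc, norm_div, Complex.norm_real, Real.norm_eq_abs,
          abs_of_pos hrpos]
        exact div_self hrpos.ne'
      have hac : a + r * c = b := by
        rw [hc]
        have : (r : ℂ) ≠ 0 := by exact_mod_cast hrpos.ne'
        field_simp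
        ring
      have hev : ∀ᶠ z in 𝓝 c, f (a + r * z) < (s : EReal) := by
        have h1 : Tendsto (fun z : ℂ => a + r * z) (𝓝 c) (𝓝 b) := by
          rw [← hac]
          exact (continuous_const.add (continuous_const.mul continuous_id)).tendsto c
        exact h1.eventually (husc b s hs1)
      obtain ⟨δ, hδ, hball⟩ := Metric.eventually_nhds_iff.1 hev
      let u : ℂ → ℝ := fun z => m - (m - s) * max 0 (1 - ‖z - c‖ / δ)
      have hu : Continuous u := by fun_prop
      have hmax0 : ∀ z : ℂ, 0 ≤ max 0 (1 - ‖z - c‖ / δ) := fun z => le_max_left _ _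
      have hmax1 : ∀ z : ℂ, max 0 (1 - ‖z - c‖ / δ) ≤ 1 := by
        intro z
        refine max_le zero_le_one ?_
        have : 0 ≤ ‖z - c‖ / δ := by positivity
        linarith
      have hum : ∀ z, u z ≤ m := by
        intro z
        have := mul_nonneg (sub_nonneg.2 hs2'.le) (hmax0 z)
        simp only [u]; linarith
      have hub : u c < m := by
        have : u c = s := by
          simp [u]
        rw [this]; exact hs2'
      have h3 : f a ≤ ((Real.circleAverage u 0 1 : ℝ) : EReal) := by
        refine hr r hrpos hrlt u hu (fun z hz => ?_)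
        by_cases hzc : dist z c < δ
        · refine (hball hzc).le.trans ?_
          have : s ≤ u z := by
            have := mul_le_mul_of_nonneg_left (hmax1 z) (sub_nonneg.2 hs2'.le)
            simp only [u]; linarith
          exact_mod_cast this
        · have : u z = m := by
            have h4 : δ ≤ ‖z - c‖ := by rw [← dist_eq_norm]; exact not_lt.1 hzc
            have h5 : 1 - ‖z - c‖ / δ ≤ 0 := by
              have := (one_le_div hδ).2 h4
              linarith
            simp only [u, max_eq_left h5, mul_zero, sub_zero]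
          rw [this]
          exact hle _
      have h4 := circleAverage_lt hu hum hcs hub
      have ha' : f a = (m : EReal) := ha
      rw [ha'] at h3
      have h5 : m ≤ Real.circleAverage u 0 1 := by exact_mod_cast h3
      linarith
    have huniv : {z | f z = (m : EReal)} = univ :=
      IsClopen.eq_univ ⟨hcl, hop⟩ ⟨0, h0⟩
    have : z ∈ {z | f z = (m : EReal)} := by rw [huniv]; trivial
    exact this

end Pool.Agent.Helper47.Ext
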