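import Mathlib
import Pool.Agent.Helper47.Ext.Family

set_option autoImplicit false

namespace Pool.Agent.Helper47.Ext

open scoped Manifold ContDiff Topology ComplexConjugate InnerProductSpace
open Set Metric Filter

/-- local representatives of a global section of O(-1,1) -/
noncomputable def GG (q : Fin 2 × Fin 3) (P : XT) : ℂ :=
  if q.1 = 0 then Yc 0 q.2 P else Xc 0 1 P * Yc 1 q.2 P - tc P * Yc 2 q.2 P

/-- local representatives of a section of the square of the bundle over the central fibre -/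
noncomputable def FFs (q : Fin 2 × Fin 3) (P : XT) : ℂ :=
  if q.1 = 0 then Yc 0 q.2 P * Yc 2 q.2 P else Yc 1 q.2 P * Yc 2 q.2 P

lemma GG_change {P : XT} {q r : Fin 2 × Fin 3} (hq : P ∈ US q.1 q.2) (hr : P ∈ US r.1 r.2) :
    GG q P = gg q r P * GG r P := by
  obtain ⟨x, y, t, hg, rfl⟩ := exists_rep P
  obtain ⟨h1, h2⟩ := (mem_US hg _ _).1 hq
  obtain ⟨h3, h4⟩ := (mem_US hg _ _).1 hr
  have hrel := hg.2.2.1
  unfold Rel at hrel
  rw [gg_eq hg]
  obtain ⟨i, k⟩ := q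
  obtain ⟨j, l⟩ := r
  simp only [GG, Xc_pt hg, Yc_pt hg, tc_pt hg] at *
  fin_cases i <;> fin_cases j <;> simp at h1 h3 ⊢
  · field_simp
  · field_simp
    linear_combination -hrel
  · field_simp
    linear_combination hrel
  · field_simp

lemma FFs_change {P : XT} (h0 : tc P = 0) {q r : Fin 2 × Fin 3} (hq : P ∈ US q.1 q.2)
    (hr : P ∈ US r.1 r.2) : FFs q P = (gg q r P) ^ 2 * FFs r P := by
  obtain ⟨x, y, t, hg, rfl⟩ := exists_rep P
  obtain ⟨h1, h2⟩ := (mem_US hg _ _).1 hq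
  obtain ⟨h3, h4⟩ := (mem_US hg _ _).1 hr
  have hrel := hg.2.2.1
  rw [tc_pt hg] at h0
  unfold Rel at hrel
  rw [h0] at hrel
  rw [gg_eq hg]
  obtain ⟨i, k⟩ := q
  obtain ⟨j, l⟩ := r
  simp only [FFs, Yc_pt hg] at *
  fin_cases i <;> fin_cases j <;> simp at h1 h3 ⊢
  · field_simp
  · field_simp
    linear_combination -(y 2) * hrel
  · field_simp
    linear_combination (y 2) * hrel
  · field_simp

lemma gg_ne {P : XT} {q r : Fin 2 × Fin 3} (hq : P ∈ US q.1 q.2) (hr : P ∈ US r.1 r.2) :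
    gg q r P ≠ 0 := mul_ne_zero (Xc_ne hr hq) (Yc_ne hq hr)

lemma mdiff_GG {P : XT} {q : Fin 2 × Fin 3} (hq : P ∈ US q.1 q.2)
    (hX : q.1 = 0 ∨ P ∈ US 1 q.2) : MDifferentiableAt 𝓘(ℂ, E3) 𝓘(ℂ, ℂ) (GG q) P := by
  have hY : ∀ b, MDifferentiableAt 𝓘(ℂ, E3) 𝓘(ℂ, ℂ) (Yc b q.2) P := fun b =>
    (contMDiffAt_Yc b q.2 q.1 hq).mdifferentiableAt (by simp)
  have hT : MDifferentiableAt 𝓘(ℂ, E3) 𝓘(ℂ, ℂ) tc P :=
    (contMDiff_tc P).mdifferentiableAt (by simp)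
  by_cases h : q.1 = 0
  · have : GG q = Yc 0 q.2 := by
      funext Q; simp [GG, h]
    rw [this]; exact hY 0
  · have h1 : GG q = fun Q => Xc 0 1 Q * Yc 1 q.2 Q - tc Q * Yc 2 q.2 Q := by
      funext Q; simp [GG, h]
    have hXX : MDifferentiableAt 𝓘(ℂ, E3) 𝓘(ℂ, ℂ) (Xc 0 1) P :=
      (contMDiffAt_Xc 0 1 q.2 (hX.resolve_left h)).mdifferentiableAt (by simp)
    rw [h1]
    exact (hXX.mul (hY 1)).sub (hT.mul (hY 2))

lemma mdiff_GG' {P : XT} {q : Fin 2 × Fin 3} (hq : P ∈ US q.1 q.2) :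
    MDifferentiableAt 𝓘(ℂ, E3) 𝓘(ℂ, ℂ) (GG q) P := by
  apply mdiff_GG hq
  obtain ⟨i, k⟩ := q
  fin_cases i
  · exact Or.inl rfl
  · exact Or.inr hq

lemma mdiff_FFs {P : XT} {q : Fin 2 × Fin 3} (hq : P ∈ US q.1 q.2) :
    MDifferentiableAt 𝓘(ℂ, E3) 𝓘(ℂ, ℂ) (FFs q) P := by
  have hY : ∀ b, MDifferentiableAt 𝓘(ℂ, E3) 𝓘(ℂ, ℂ) (Yc b q.2) P := fun b =>
    (contMDiffAt_Yc b q.2 q.1 hq).mdifferentiableAt (by simp)
  by_cases h : q.1 = 0
  · have h1 : FFs q = fun Q => Yc 0 q.2 Q * Yc 2 q.2 Q := by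
      funext Q; simp [FFs, h]
    rw [h1]; exact (hY 0).mul (hY 2)
  · have h1 : FFs q = fun Q => Yc 1 q.2 Q * Yc 2 q.2 Q := by
      funext Q; simp [FFs, h]
    rw [h1]; exact (hY 1).mul (hY 2)

/-- moving in a chart direction -/
lemma move {c : CD} {P : XT} (hP : P ∈ c.chart.source) {W : Set XT} (hW : IsOpen W) (hPW : P ∈ W)
    (e : E3) : ∃ s : ℂ, s ≠ 0 ∧ ‖(c.chart P + s • e).2.2‖ < 1 ∧ c.chart.symm (c.chart P + s • e) ∈ W := by
  have h1 : Tendsto (fun s : ℂ => c.chart P + s • e) (𝓝 0) (𝓝 (c.chart P)) := by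
    have : Continuous (fun s : ℂ => c.chart P + s • e) := by fun_prop
    have h2 := this.tendsto 0
    simpa using h2
  have h3 : ∀ᶠ u in 𝓝 (c.chart P), c.chart.symm u ∈ W := by
    have h4 := c.chart.symm.continuousAt (c.chart.map_source hP)
    have h5 : c.chart.symm (c.chart P) ∈ W := by rw [c.chart.left_inv hP]; exact hPW
    exact h4.eventually (hW.mem_nhds h5)
  have h6 := h1.eventually ((source_nhds hP).and h3)
  have h7 : ∀ᶠ s in 𝓝[≠] (0 : ℂ), ‖(c.chart P + s • e).2.2‖ < 1 ∧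
      c.chart.symm (c.chart P + s • e) ∈ W := h6.filter_mono nhdsWithin_le_nhds
  have h8 : ∀ᶠ s in 𝓝[≠] (0 : ℂ), s ≠ 0 := eventually_nhdsWithin_of_forall fun s hs => hs
  obtain ⟨s, hs1, hs2⟩ := (h8.and h7).exists
  exact ⟨s, hs1, hs2.1, hs2.2⟩

lemma GG_nontrivial {q : Fin 2 × Fin 3} {W : Set XT} (hW : IsOpen W)
    (hne : (W ∩ US q.1 q.2).Nonempty) : ∃ P ∈ W ∩ US q.1 q.2, GG q P ≠ 0 := by
  obtain ⟨P, hPW, hPq⟩ := hne
  obtain ⟨c, hcd, hc⟩ := exists_chart P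
  have hcU : P ∈ US c.i c.k := hc
  by_contra hcon
  push Not at hcon
  -- the representative in the chart vanishes near P
  have hvan : ∀ Q ∈ (W ∩ US q.1 q.2) ∩ US c.i c.k, GG (c.i, c.k) Q = 0 := by
    rintro Q ⟨hQ, hQc⟩
    rw [GG_change (q := (c.i, c.k)) (r := q) hQc hQ.2, hcon Q hQ, mul_zero]
  have hO : IsOpen ((W ∩ US q.1 q.2) ∩ US c.i c.k) :=
    (hW.inter (isOpen_US _ _)).inter (isOpen_US _ _)
  have hPO : P ∈ (W ∩ US q.1 q.2) ∩ US c.i c.k := ⟨⟨hPW, hPq⟩, hcU⟩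
  have hP0 := hvan P hPO
  cases hcd with
  | A =>
    obtain ⟨s, hs, hs1, hs2⟩ := move hc hO hPO ((0, 1, 0) : E3)
    have h1 := hvan _ hs2
    have e0 : GG (cA.i, cA.k) P = (cA.chart P).2.1 := rfl
    have e1 : GG (cA.i, cA.k) (cA.chart.symm (cA.chart P + s • ((0, 1, 0) : E3))) =
        (cA.chart P).2.1 + s := by
      show Yc 0 2 _ = _
      rw [cA.Yc_symm hs1]
      simp [cA]
    rw [e1, ← e0, hP0, zero_add] at h1
    exact hs h1
  | B =>
    have e0 : GG (cB.i, cB.k) P = 1 := Yc_self hcU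
    rw [e0] at hP0
    exact one_ne_zero hP0
  | C =>
    obtain ⟨s, hs, hs1, hs2⟩ := move hc hO hPO ((0, 0, 1) : E3)
    have h1 := hvan _ hs2
    have e0 : GG (cC.i, cC.k) P = (cC.chart P).1 * (cC.chart P).2.1 - (cC.chart P).2.2 := by
      have h3 : GG (cC.i, cC.k) P = Xc 0 1 P * Yc 1 2 P - tc P * Yc 2 2 P := rfl
      have h4 : Yc 2 2 P = 1 := Yc_self hcU
      rw [h3, h4, mul_one]; rfl
    have e1 : GG (cC.i, cC.k) (cC.chart.symm (cC.chart P + s • ((0, 0, 1) : E3))) =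
        (cC.chart P).1 * (cC.chart P).2.1 - ((cC.chart P).2.2 + s) := by
      show Xc 0 1 _ * Yc 1 2 _ - tc _ * Yc 2 2 _ = _
      rw [cC.Yc_symm hs1, cC.Yc_symm hs1, cC.Xc_symm hs1, cC.tc_symm hs1]
      simp [cC]
    have h2 : s = 0 := by
      rw [e1] at h1
      rw [e0] at hP0
      linear_combination hP0 - h1
    exact hs h2
  | D =>
    obtain ⟨s, hs, hs1, hs2⟩ := move hc hO hPO ((1, 0, 0) : E3)
    have h1 := hvan _ hs2
    have e0 : GG (cD.i, cD.k) P = (cD.chart P).1 - (cD.chart P).2.2 * (cD.chart P).2.1 := by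
      have h3 : GG (cD.i, cD.k) P = Xc 0 1 P * Yc 1 1 P - tc P * Yc 2 1 P := rfl
      have h4 : Yc 1 1 P = 1 := Yc_self hcU
      rw [h3, h4, mul_one]; rfl
    have e1 : GG (cD.i, cD.k) (cD.chart.symm (cD.chart P + s • ((1, 0, 0) : E3))) =
        ((cD.chart P).1 + s) - (cD.chart P).2.2 * (cD.chart P).2.1 := by
      show Xc 0 1 _ * Yc 1 1 _ - tc _ * Yc 2 1 _ = _
      rw [cD.Yc_symm hs1, cD.Yc_symm hs1, cD.Xc_symm hs1, cD.tc_symm hs1]
      simp [cD]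
    have h2 : s = 0 := by
      rw [e1] at h1
      rw [e0] at hP0
      linear_combination h1 - hP0
    exact hs h2

lemma FFs_nontrivial {q : Fin 2 × Fin 3} {W : Set XT} (hW : IsOpen W)
    (hne : (W ∩ (tc ⁻¹' {0} ∩ US q.1 q.2)).Nonempty) :
    ∃ P ∈ W ∩ (tc ⁻¹' {0} ∩ US q.1 q.2), FFs q P ≠ 0 := by
  obtain ⟨P, hPW, hP0, hPq⟩ := hne
  obtain ⟨c, hcd, hc⟩ := exists_chart P
  have hcU : P ∈ US c.i c.k := hc
  by_contra hcon
  push Not at hcon
  have hvan : ∀ Q ∈ (W ∩ US q.1 q.2) ∩ US c.i c.k, tc Q = 0 → FFs (c.i, c.k) Q = 0 := by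
    rintro Q ⟨hQ, hQc⟩ hQ0
    rw [FFs_change hQ0 (q := (c.i, c.k)) (r := q) hQc hQ.2, hcon Q ⟨hQ.1, hQ0, hQ.2⟩, mul_zero]
  have hO : IsOpen ((W ∩ US q.1 q.2) ∩ US c.i c.k) :=
    (hW.inter (isOpen_US _ _)).inter (isOpen_US _ _)
  have hPO : P ∈ (W ∩ US q.1 q.2) ∩ US c.i c.k := ⟨⟨hPW, hPq⟩, hcU⟩
  have hPt : (c.chart P).2.2 = 0 := hP0
  obtain ⟨s, hs, hs1, hs2⟩ := move hc hO hPO ((0, 1, 0) : E3)
  have ht : tc (c.chart.symm (c.chart P + s • ((0, 1, 0) : E3))) = 0 := by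
    rw [c.tc_symm hs1]
    simp [hPt]
  have h1 := hvan _ hs2 ht
  have h0 := hvan P hPO hP0
  have key : ∀ u : E3, ‖u.2.2‖ < 1 → FFs (c.i, c.k) (c.chart.symm u) = u.2.1 := by
    intro u hu
    cases hcd with
    | A =>
      show Yc 0 2 _ * Yc 2 2 _ = _
      rw [cA.Yc_symm hu, cA.Yc_symm hu]
      simp [cA]
    | B =>
      show Yc 0 0 _ * Yc 2 0 _ = _
      rw [cB.Yc_symm hu, cB.Yc_symm hu]
      simp [cB]
    | C =>
      show Yc 1 2 _ * Yc 2 2 _ = _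
      rw [cC.Yc_symm hu, cC.Yc_symm hu]
      simp [cC]
    | D =>
      show Yc 1 1 _ * Yc 2 1 _ = _
      rw [cD.Yc_symm hu, cD.Yc_symm hu]
      simp [cD]
  rw [key _ hs1] at h1
  have h3 := key (c.chart P) (target_norm hc)
  rw [c.chart.left_inv hc, h0] at h3
  have h2 : s = 0 := by
    simp only [Prod.snd_add, Prod.fst_add, Prod.smul_snd, Prod.smul_fst, smul_eq_mul, mul_one] at h1
    linear_combination h1 + h3
  exact hs h2

lemma elog_scale {a b : ℂ} (hb : b ≠ 0) :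
    elog (b ^ 2 * a) = elog a + ((Real.log (‖b‖ ^ 2) : ℝ) : EReal) := by
  rw [elog_mul, elog_of_ne (pow_ne_zero 2 hb), norm_pow, add_comm]

theorem metric_total : LL.IsPosMetric univ (fun q P => elog ((GG q P) ^ 2)) where
  psh q := by
    refine isPsh_elog (U := US q.1 q.2) (isOpen_US _ _) inter_subset_right ?_ ?_
    · intro P hP
      have h1 := mdiff_GG' (q := q) hP
      have h2 : (fun P => GG q P ^ 2) = GG q * GG q := by
        funext Q
        rw [Pi.mul_apply, pow_two]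
      rw [h2]
      exact h1.mul h1
    · intro W hW hne
      rw [univ_inter] at hne ⊢
      obtain ⟨P, hP, h⟩ := GG_nontrivial hW hne
      exact ⟨P, hP, pow_ne_zero 2 h⟩
  compat q r P hP := by
    show elog ((GG q P) ^ 2) = elog ((GG r P) ^ 2) + ((Real.log (‖gg q r P‖ ^ 2) : ℝ) : EReal)
    rw [GG_change hP.2.1 hP.2.2, mul_pow]
    exact elog_scale (gg_ne hP.2.1 hP.2.2)

theorem metric_central : LL.IsPosMetric (tc ⁻¹' {0}) (fun q P => elog (FFs q P)) where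
  psh q := by
    refine isPsh_elog (U := US q.1 q.2) (isOpen_US _ _) inter_subset_right ?_ ?_
    · intro P hP
      exact mdiff_FFs (q := q) hP
    · intro W hW hne
      exact FFs_nontrivial hW hne
  compat q r P hP := by
    show elog (FFs q P) = elog (FFs r P) + ((Real.log (‖gg q r P‖ ^ 2) : ℝ) : EReal)
    rw [FFs_change hP.1 hP.2.1 hP.2.2]
    exact elog_scale (gg_ne hP.2.1 hP.2.2)

end Pool.Agent.Helper47.Ext
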