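import Mathlib
import Pool.Agent.Helper47.Ext.Metrics
import Pool.Agent.Helper47.Ext.MaxP

set_option autoImplicit false

namespace Pool.Agent.Helper47.Ext

open scoped Manifold ContDiff Topology ComplexConjugate InnerProductSpace
open Set Metric Filter

/-- second homogeneous coordinate along the special curve -/
def yv (t : ℂ) (x : Fin 2 → ℂ) : Fin 3 → ℂ := ![t * x 0, 2 * t ^ 2 * x 1, 2 * t * x 0 - x 1]

/-- the special curve -/
noncomputable def cv (t : ℂ) (x : Fin 2 → ℂ) : XT := pt x (yv t x) t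

lemma good_cv {t : ℂ} (h0 : t ≠ 0) (h1 : ‖t‖ < 1) {x : Fin 2 → ℂ} (hx : x ≠ 0) :
    Good x (yv t x) t := by
  refine ⟨hx, ?_, ?_, h1⟩
  · intro h
    apply hx
    have e0 := congrFun h 0
    have e2 := congrFun h 2
    simp only [yv, Matrix.cons_val_zero, Matrix.cons_val, Pi.zero_apply] at e0 e2
    have hx0 : x 0 = 0 := (mul_eq_zero.1 e0).resolve_left h0
    have hx1 : x 1 = 0 := by rw [hx0] at e2; linear_combination -e2
    funext j
    fin_cases j
    · exact hx0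
    · exact hx1
  · simp only [Rel, yv, Matrix.cons_val_zero, Matrix.cons_val_one, Matrix.cons_val]
    ring

lemma GG_cv {t : ℂ} (h0 : t ≠ 0) (h1 : ‖t‖ < 1) {x : Fin 2 → ℂ} (hx : x ≠ 0)
    {q : Fin 2 × Fin 3} (hq : cv t x ∈ US q.1 q.2) :
    GG q (cv t x) = t * x q.1 / yv t x q.2 := by
  have hg := good_cv h0 h1 hx
  obtain ⟨n1, n2⟩ := (mem_US hg _ _).1 hq
  obtain ⟨i, k⟩ := q
  simp only [GG, cv, Xc_pt hg, Yc_pt hg, tc_pt hg] at *
  fin_cases i
  · simp [yv]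
  · simp at n1 ⊢
    field_simp
    simp only [yv, Matrix.cons_val_zero, Matrix.cons_val_one, Matrix.cons_val]
    ring

lemma GG_cv_ne {t : ℂ} (h0 : t ≠ 0) (h1 : ‖t‖ < 1) {x : Fin 2 → ℂ} (hx : x ≠ 0)
    {q : Fin 2 × Fin 3} (hq : cv t x ∈ US q.1 q.2) : GG q (cv t x) ≠ 0 := by
  have hg := good_cv h0 h1 hx
  obtain ⟨n1, n2⟩ := (mem_US hg _ _).1 hq
  rw [GG_cv h0 h1 hx hq]
  exact div_ne_zero (mul_ne_zero h0 n1) n2

lemma continuousOn_cv {t : ℂ} (h0 : t ≠ 0) (h1 : ‖t‖ < 1) :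
    ContinuousOn (cv t) {x | x ≠ 0} := by
  refine continuousOn_pt continuousOn_id ?_ continuousOn_const (fun x hx => good_cv h0 h1 hx)
  refine Continuous.continuousOn ?_
  unfold yv
  refine continuous_pi fun j => ?_
  fin_cases j <;> simp <;> fun_prop

lemma continuousAt_cv {t : ℂ} (h0 : t ≠ 0) (h1 : ‖t‖ < 1) {x : Fin 2 → ℂ} (hx : x ≠ 0) :
    ContinuousAt (cv t) x :=
  (continuousOn_cv h0 h1).continuousAt (isOpen_ne.mem_nhds hx)

section

variable {r : ℝ} {φ : Fin 2 × Fin 3 → XT → EReal}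

/-- the difference with the section, globally defined -/
noncomputable def VV (φ : Fin 2 × Fin 3 → XT → EReal) (P : XT) : EReal :=
  φ (exists_US P).choose P + ((-Real.log (‖GG (exists_US P).choose P‖ ^ 2) : ℝ) : EReal)

lemma VV_eq (hφ : LL.IsPosMetric (tc ⁻¹' ball 0 r) φ) {P : XT} (hP : P ∈ tc ⁻¹' ball 0 r)
    {q : Fin 2 × Fin 3} (hq : P ∈ US q.1 q.2) (hG : GG q P ≠ 0) :
    VV φ P = φ q P + ((-Real.log (‖GG q P‖ ^ 2) : ℝ) : EReal) := by
  unfold VV
  have hq' := (exists_US P).choose_spec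
  set q' := (exists_US P).choose with hq'd
  have h1 := hφ.compat q' q P ⟨hP, hq', hq⟩
  have h2 : GG q' P = gg q' q P * GG q P := GG_change hq' hq
  have h3 : gg q' q P ≠ 0 := gg_ne hq' hq
  rw [h1, h2, norm_mul, mul_pow, Real.log_mul (by positivity) (by positivity)]
  show φ q P + ((Real.log (‖gg q' q P‖ ^ 2) : ℝ) : EReal) +
    ((-(Real.log (‖gg q' q P‖ ^ 2) + Real.log (‖GG q P‖ ^ 2)) : ℝ) : EReal) = _
  rw [add_assoc, ← EReal.coe_add]
  congr 2
  ring

lemma ereal_shift {a : EReal} {b c : ℝ} (h : a + ((-b : ℝ) : EReal) ≤ (c : EReal)) :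
    a ≤ ((c + b : ℝ) : EReal) := by
  induction a using EReal.rec with
  | bot => exact bot_le
  | top => simp at h
  | coe a =>
    rw [← EReal.coe_add, EReal.coe_le_coe_iff] at h
    rw [EReal.coe_le_coe_iff]
    linarith

lemma ereal_shift' {a : EReal} {b c : ℝ} (h : a ≤ ((c + b : ℝ) : EReal)) :
    a + ((-b : ℝ) : EReal) ≤ (c : EReal) := by
  induction a using EReal.rec with
  | bot => simp
  | top => exact absurd (top_le_iff.1 h) (EReal.coe_ne_top _)
  | coe a =>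
    rw [EReal.coe_le_coe_iff] at h
    rw [← EReal.coe_add, EReal.coe_le_coe_iff]
    linarith

lemma usc_VV (hφ : LL.IsPosMetric (tc ⁻¹' ball 0 r) φ) {t : ℂ} (h0 : t ≠ 0) (h1 : ‖t‖ < 1)
    (h2 : ‖t‖ < r) {x : Fin 2 → ℂ} (hx : x ≠ 0) :
    UpperSemicontinuousAt (fun x => VV φ (cv t x)) x := by
  obtain ⟨q, hq⟩ := exists_US (cv t x)
  have hcont := continuousAt_cv h0 h1 hx
  have hxe : ∀ᶠ x' in 𝓝 x, x' ≠ 0 := isOpen_ne.mem_nhds hx
  have hUe : ∀ᶠ x' in 𝓝 x, cv t x' ∈ US q.1 q.2 :=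
    hcont.eventually ((isOpen_US _ _).mem_nhds hq)
  have hB : ∀ x' : Fin 2 → ℂ, x' ≠ 0 → cv t x' ∈ tc ⁻¹' ball 0 r := by
    intro x' hx'
    show tc (pt x' (yv t x') t) ∈ ball (0 : ℂ) r
    rw [tc_pt (good_cv h0 h1 hx')]
    simpa using h2
  have hcG : ContinuousAt (fun x => GG q (cv t x)) x :=
    ContinuousAt.comp (g := GG q) (f := cv t) (mdiff_GG' hq).continuousAt hcont
  have hne := GG_cv_ne h0 h1 hx hq
  have hreal : ContinuousAt (fun x => ((-Real.log (‖GG q (cv t x)‖ ^ 2) : ℝ) : EReal)) x := by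
    refine continuous_coe_real_ereal.continuousAt.comp ?_
    exact (((hcG.norm).pow 2).log (pow_ne_zero 2 (norm_ne_zero_iff.2 hne))).neg
  have husc : UpperSemicontinuousAt (fun x => φ q (cv t x)) x := by
    intro y hy
    have h3 := (hφ.psh q).usc (cv t x) ⟨hB x hx, hq⟩ y hy
    have h4 : Tendsto (cv t) (𝓝 x) (𝓝[tc ⁻¹' ball 0 r ∩ LL.U q] (cv t x)) := by
      rw [tendsto_nhdsWithin_iff]
      refine ⟨hcont, ?_⟩
      filter_upwards [hxe, hUe] with x' h5 h6 using ⟨hB x' h5, h6⟩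
    exact h4.eventually h3
  have hsum : UpperSemicontinuousAt (fun x => φ q (cv t x) +
      ((-Real.log (‖GG q (cv t x)‖ ^ 2) : ℝ) : EReal)) x := by
    refine husc.add' hreal.upperSemicontinuousAt ?_
    refine EReal.continuousAt_add ?_ ?_
    · right; exact EReal.coe_ne_bot _
    · right; exact EReal.coe_ne_top _
  intro y hy
  have hy' : φ q (cv t x) + ((-Real.log (‖GG q (cv t x)‖ ^ 2) : ℝ) : EReal) < y := by
    rw [← VV_eq hφ (hB x hx) hq hne]; exact hy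
  filter_upwards [hsum y hy', hxe, hUe] with x' h5 h6 h7
  show VV φ (cv t x') < y
  rw [VV_eq hφ (hB x' h6) h7 (GG_cv_ne h0 h1 h6 h7)]
  exact h5

lemma submean_VV (hφ : LL.IsPosMetric (tc ⁻¹' ball 0 r) φ) {t : ℂ} (h0 : t ≠ 0) (h1 : ‖t‖ < 1)
    (h2 : ‖t‖ < r) {a b : Fin 2 → ℂ} (hab : ∀ l : ℂ, a + l • b ≠ 0) (l0 : ℂ) :
    ∃ r0 : ℝ, 0 < r0 ∧ ∀ ρ : ℝ, 0 < ρ → ρ < r0 → ∀ u : ℂ → ℝ, Continuous u →
      (∀ z ∈ sphere (0 : ℂ) 1, VV φ (cv t (a + (l0 + ρ * z) • b)) ≤ (u z : EReal)) →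
        VV φ (cv t (a + l0 • b)) ≤ ((Real.circleAverage u 0 1 : ℝ) : EReal) := by
  obtain ⟨q, hq⟩ := exists_US (cv t (a + l0 • b))
  have hB : ∀ x' : Fin 2 → ℂ, x' ≠ 0 → cv t x' ∈ tc ⁻¹' ball 0 r := by
    intro x' hx'
    show tc (pt x' (yv t x') t) ∈ ball (0 : ℂ) r
    rw [tc_pt (good_cv h0 h1 hx')]
    simpa using h2
  have hcl : Continuous (fun l : ℂ => cv t (a + l • b)) := by
    have h3 : Continuous (fun l : ℂ => a + l • b) := by fun_prop
    exact (continuousOn_cv h0 h1).comp_continuous h3 hab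
  have hO : IsOpen {l : ℂ | cv t (a + l • b) ∈ US q.1 q.2} := (isOpen_US _ _).preimage hcl
  obtain ⟨r0, hr0, hball⟩ := Metric.isOpen_iff.1 hO l0 hq
  refine ⟨r0, hr0, fun ρ hρ hρr u hu hle => ?_⟩
  set γ : ℂ → XT := fun z => cv t (a + (l0 + ρ * z) • b) with hγ
  have hγ0 : γ 0 = cv t (a + l0 • b) := by simp [hγ]
  have hmem : ∀ z ∈ closedBall (0 : ℂ) 1, γ z ∈ US q.1 q.2 := by
    intro z hz
    apply hball
    rw [mem_ball, dist_eq_norm, add_sub_cancel_left, norm_mul, Complex.norm_real,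
      Real.norm_eq_abs, abs_of_pos hρ]
    have hz' : ‖z‖ ≤ 1 := by simpa using hz
    calc ρ * ‖z‖ ≤ ρ * 1 := mul_le_mul_of_nonneg_left hz' hρ.le
      _ < r0 := by linarith
  have hcomp : ∀ j z, DifferentiableAt ℂ (fun z : ℂ => (a + (l0 + ρ * z) • b) j) z := by
    intro j z
    have : (fun z : ℂ => (a + (l0 + ρ * z) • b) j) = fun z => a j + (l0 + ρ * z) * b j := by
      funext z; simp
    rw [this]
    fun_prop
  have hcompy : ∀ k z, DifferentiableAt ℂ (fun z : ℂ => yv t (a + (l0 + ρ * z) • b) k) z := by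
    intro k z
    have e0 := hcomp 0 z
    have e1 := hcomp 1 z
    fin_cases k
    · show DifferentiableAt ℂ (fun z : ℂ => t * (a + (l0 + ρ * z) • b) 0) z
      exact e0.const_mul t
    · show DifferentiableAt ℂ (fun z : ℂ => 2 * t ^ 2 * (a + (l0 + ρ * z) • b) 1) z
      exact e1.const_mul _
    · show DifferentiableAt ℂ (fun z : ℂ => 2 * t * (a + (l0 + ρ * z) • b) 0 -
        (a + (l0 + ρ * z) • b) 1) z
      exact (e0.const_mul _).sub e1
  have hcγ : Continuous γ := by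
    have h3 : Continuous (fun z : ℂ => l0 + ρ * z) := by fun_prop
    exact hcl.comp h3
  have hdγ : ∀ z, MDifferentiableAt 𝓘(ℂ, ℂ) 𝓘(ℂ, E3) γ z := by
    intro z
    exact mdiff_curve (x := fun z => a + (l0 + ρ * z) • b)
      (y := fun z => yv t (a + (l0 + ρ * z) • b)) (t := fun _ => t) (fun j => hcomp j z)
      (fun k => hcompy k z) (differentiableAt_const t) (fun z => good_cv h0 h1 (hab _)) hcγ
  have hdisc : IsDisc E3 (tc ⁻¹' ball 0 r ∩ LL.U q) γ := by
    refine ⟨⟨2, by norm_num, fun z _ => (hdγ z).mdifferentiableWithinAt⟩, fun z hz => ?_⟩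
    exact ⟨hB _ (hab _), hmem z hz⟩
  -- the section along the disc
  set h : ℂ → ℂ := fun z => GG q (γ z) with hh
  have hne : ∀ z ∈ closedBall (0 : ℂ) 1, h z ≠ 0 := fun z hz =>
    GG_cv_ne h0 h1 (hab _) (hmem z hz)
  obtain ⟨R, hR, hRU, hRd⟩ := exists_bigger (isOpen_US q.1 q.2)
    (S := tc ⁻¹' ball 0 r ∩ LL.U q) (γ := γ) inter_subset_right hdisc
  have hdh : DifferentiableOn ℂ h (ball 0 R) := by
    intro z hz
    have h5 : MDifferentiableAt 𝓘(ℂ, ℂ) 𝓘(ℂ, ℂ) (GG q ∘ γ) z :=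
      (mdiff_GG' (hRU z hz)).comp z (hRd z hz)
    exact h5.differentiableAt.differentiableWithinAt
  have hsub : closedBall (0 : ℂ) |1| ⊆ ball 0 R := by
    intro z hz
    rw [abs_one, mem_closedBall] at hz
    rw [mem_ball]; linarith
  have hah : AnalyticOnNhd ℂ h (closedBall 0 |1|) := (hdh.analyticOnNhd isOpen_ball).mono hsub
  have havg : Real.circleAverage (fun z => Real.log ‖h z‖) 0 1 = Real.log ‖h 0‖ :=
    hah.circleAverage_log_norm_of_ne_zero (by simpa using hne)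
  have hcs : ContinuousOn h (sphere 0 1) := fun z hz =>
    ((hdh z (hsub (by rw [abs_one]; exact sphere_subset_closedBall hz))).continuousWithinAt).mono
      (fun w hw => hsub (by rw [abs_one]; exact sphere_subset_closedBall hw))
  have hlog : ContinuousOn (fun z => Real.log (‖h z‖ ^ 2)) (sphere 0 1) := by
    refine ContinuousOn.log (hcs.norm.pow 2) (fun z hz => ?_)
    exact pow_ne_zero 2 (norm_ne_zero_iff.2 (hne z (sphere_subset_closedBall hz)))
  have havg2 : Real.circleAverage (fun z => Real.log (‖h z‖ ^ 2)) 0 1 = Real.log (‖h 0‖ ^ 2) := by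
    have e : (fun z => Real.log (‖h z‖ ^ 2)) = fun z => (2 : ℝ) • Real.log ‖h z‖ := by
      funext z
      rw [Real.log_pow]; simp
    rw [e, Real.circleAverage_fun_smul, havg, Real.log_pow]; simp
  have hsm := (hφ.psh q).submean γ hdisc (fun z => u z + Real.log (‖h z‖ ^ 2))
    (hu.continuousOn.add hlog) (fun z hz => by
      have h6 := hle z hz
      have h7 : VV φ (γ z) = φ q (γ z) + ((-Real.log (‖GG q (γ z)‖ ^ 2) : ℝ) : EReal) :=
        VV_eq hφ (hB _ (hab _)) (hmem z (sphere_subset_closedBall hz))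
          (hne z (sphere_subset_closedBall hz))
      have h8 : VV φ (γ z) ≤ (u z : EReal) := h6
      rw [h7] at h8
      exact ereal_shift h8)
  have hz0 : (0 : ℂ) ∈ closedBall (0 : ℂ) 1 := mem_closedBall_self zero_le_one
  rw [← hγ0, VV_eq hφ (hB _ (hab _)) (hmem 0 hz0) (hne 0 hz0)]
  apply ereal_shift'
  have hint1 : CircleIntegrable u 0 1 := hu.continuousOn.circleIntegrable zero_le_one
  have hint2 : CircleIntegrable (fun z => Real.log (‖h z‖ ^ 2)) 0 1 :=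
    hlog.circleIntegrable zero_le_one
  rw [Real.circleAverage_fun_add hint1 hint2, havg2] at hsm
  exact hsm

lemma cv_smul {t : ℂ} (h0 : t ≠ 0) (h1 : ‖t‖ < 1) {x : Fin 2 → ℂ} (hx : x ≠ 0) {c : ℂ}
    (hc : c ≠ 0) : cv t (c • x) = cv t x := by
  have e : yv t (c • x) = c • yv t x := by
    funext j
    fin_cases j
    · show t * (c * x 0) = c * (t * x 0)
      ring
    · show 2 * t ^ 2 * (c * x 1) = c * (2 * t ^ 2 * x 1)
      ring
    · show 2 * t * (c * x 0) - c * x 1 = c * (2 * t * x 0 - x 1)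
      ring
  rw [cv, e]
  exact pt_smul (good_cv h0 h1 hx) hc hc

lemma const_VV (hφ : LL.IsPosMetric (tc ⁻¹' ball 0 r) φ) {t : ℂ} (h0 : t ≠ 0) (h1 : ‖t‖ < 1)
    (h2 : ‖t‖ < r) : ∃ m : EReal, ∀ x : Fin 2 → ℂ, x ≠ 0 → VV φ (cv t x) = m := by
  have hne : (sphere (0 : Fin 2 → ℂ) 1).Nonempty :=
    (NormedSpace.sphere_nonempty (x := (0 : Fin 2 → ℂ)) (r := 1)).2 zero_le_one
  have hsn : ∀ x ∈ sphere (0 : Fin 2 → ℂ) 1, x ≠ 0 := by
    intro x hx h
    rw [h] at hx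
    simp at hx
  have husc : UpperSemicontinuousOn (fun x => VV φ (cv t x)) (sphere (0 : Fin 2 → ℂ) 1) :=
    fun x hx => (usc_VV hφ h0 h1 h2 (hsn x hx)).upperSemicontinuousWithinAt _
  obtain ⟨a, ha, hmax⟩ := husc.exists_isMaxOn hne (isCompact_sphere _ _)
  have ha0 : a ≠ 0 := hsn a ha
  have hle : ∀ x : Fin 2 → ℂ, x ≠ 0 → VV φ (cv t x) ≤ VV φ (cv t a) := by
    intro x hx
    have nx : ‖x‖ ≠ 0 := norm_ne_zero_iff.2 hx
    have nx' : (‖x‖⁻¹ : ℂ) ≠ 0 := by exact_mod_cast inv_ne_zero nx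
    rw [← cv_smul h0 h1 hx nx']
    apply hmax
    rw [mem_sphere, dist_zero_right, norm_smul, norm_inv, Complex.norm_real, norm_norm]
    exact inv_mul_cancel₀ nx
  have hB : ∀ x' : Fin 2 → ℂ, x' ≠ 0 → cv t x' ∈ tc ⁻¹' ball 0 r := by
    intro x' hx'
    show tc (pt x' (yv t x') t) ∈ ball (0 : ℂ) r
    rw [tc_pt (good_cv h0 h1 hx')]
    simpa using h2
  have hlt : VV φ (cv t a) < ⊤ := by
    obtain ⟨q, hq⟩ := exists_US (cv t a)
    rw [VV_eq hφ (hB a ha0) hq (GG_cv_ne h0 h1 ha0 hq)]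
    exact EReal.add_lt_top ((hφ.psh q).lt_top _ ⟨hB a ha0, hq⟩).ne (EReal.coe_ne_top _)
  refine ⟨VV φ (cv t a), fun b hb => ?_⟩
  by_cases hc : ∃ c : ℂ, b = c • a
  · obtain ⟨c, rfl⟩ := hc
    have hc0 : c ≠ 0 := by
      rintro rfl
      exact hb (zero_smul _ _)
    rw [cv_smul h0 h1 ha0 hc0]
  · have hab : ∀ l : ℂ, a + l • b ≠ 0 := by
      intro l hl
      have hl0 : l ≠ 0 := by
        rintro rfl
        rw [zero_smul, add_zero] at hl
        exact ha0 hl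
      apply hc
      refine ⟨-l⁻¹, ?_⟩
      have h3 : l • b = -a := by
        rw [add_comm] at hl
        exact eq_neg_of_add_eq_zero_left hl
      have h4 : b = l⁻¹ • (l • b) := by rw [smul_smul, inv_mul_cancel₀ hl0, one_smul]
      rw [h4, h3, smul_neg, neg_smul]
    have hline : ∀ l : ℂ, VV φ (cv t (a + l • b)) = VV φ (cv t a) := by
      refine max_principle (f := fun l => VV φ (cv t (a + l • b))) ?_ (fun l => hle _ (hab l)) hlt
        ?_ (fun l => submean_VV hφ h0 h1 h2 hab l)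
      · intro l
        have h5 := usc_VV hφ h0 h1 h2 (hab l)
        have h6 : ContinuousAt (fun l : ℂ => a + l • b) l := by fun_prop
        intro y hy
        exact h6.eventually (h5 y hy)
      · show VV φ (cv t (a + (0 : ℂ) • b)) = _
        rw [zero_smul, add_zero]
    refine le_antisymm (hle b hb) ?_
    by_contra hcon
    have hlt' := not_le.1 hcon
    have h7 := usc_VV hφ h0 h1 h2 hb _ hlt'
    have h8 : Tendsto (fun e : ℂ => b + e • a) (𝓝 0) (𝓝 b) := by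
      have : Continuous (fun e : ℂ => b + e • a) := by fun_prop
      have h9 := this.tendsto 0
      simpa using h9
    have h9 : ∀ᶠ e in 𝓝[≠] (0 : ℂ), VV φ (cv t (b + e • a)) < VV φ (cv t a) :=
      (h8.eventually h7).filter_mono nhdsWithin_le_nhds
    have h10 : ∀ᶠ e in 𝓝[≠] (0 : ℂ), e ≠ 0 := eventually_nhdsWithin_of_forall fun e he => he
    obtain ⟨e, he1, he2⟩ := (h9.and h10).exists
    have h11 : b + e • a = e • (a + e⁻¹ • b) := by
      rw [smul_add, smul_smul, mul_inv_cancel₀ he2, one_smul, add_comm]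
    rw [h11, cv_smul h0 h1 (hab _) he2, hline] at he1
    exact lt_irrefl _ he1

end

/-- curve of points with `z = 0`, `ζ = 1/2` -/
noncomputable def pp (t : ℂ) : XT := pt ![1, 0] ![1 / 2, 0, 1] t

/-- curve of points with `z = t`, `ζ = 1` -/
noncomputable def qq (t : ℂ) : XT := pt ![1, t] ![1, 2 * t ^ 2, 1] t

lemma good_pp {t : ℂ} (h1 : ‖t‖ < 1) : Good ![1, 0] ![1 / 2, 0, 1] t := by
  refine ⟨?_, ?_, ?_, h1⟩
  · intro h
    have := congrFun h 0
    simp at this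
  · intro h
    have := congrFun h 2
    simp at this
  · simp [Rel]

lemma good_qq {t : ℂ} (h1 : ‖t‖ < 1) : Good ![1, t] ![1, 2 * t ^ 2, 1] t := by
  refine ⟨?_, ?_, ?_, h1⟩
  · intro h
    have := congrFun h 0
    simp at this
  · intro h
    have := congrFun h 2
    simp at this
  · simp [Rel]; ring

lemma pp_eq {t : ℂ} (h0 : t ≠ 0) (h1 : ‖t‖ < 1) : pp t = cv t ![1, 0] := by
  have h2 : (2 * t) ≠ 0 := mul_ne_zero two_ne_zero h0
  have h3 := pt_smul (good_pp h1) one_ne_zero h2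
  rw [pp, ← h3, cv]
  congr 1
  · rw [one_smul]
  · funext j
    fin_cases j
    · simp [yv]; ring
    · simp [yv]
    · simp [yv]

lemma qq_eq {t : ℂ} (h0 : t ≠ 0) (h1 : ‖t‖ < 1) : qq t = cv t ![1, t] := by
  have h3 := pt_smul (good_qq h1) one_ne_zero h0
  rw [qq, ← h3, cv]
  congr 1
  · rw [one_smul]
  · funext j
    fin_cases j
    · simp [yv]
    · simp [yv]; ring
    · simp [yv]; ring

lemma vec_ne (s : ℂ) : (![1, s] : Fin 2 → ℂ) ≠ 0 := by
  intro h
  have := congrFun h 0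
  simp at this

lemma pp_mem {t : ℂ} (h1 : ‖t‖ < 1) : pp t ∈ US 0 2 := by
  rw [pp, mem_US (good_pp h1)]; simp

lemma qq_mem {t : ℂ} (h1 : ‖t‖ < 1) : qq t ∈ US 0 2 := by
  rw [qq, mem_US (good_qq h1)]; simp

lemma GG_pp {t : ℂ} (h1 : ‖t‖ < 1) : GG (0, 2) (pp t) = 1 / 2 := by
  show Yc 0 2 (pt ![1, 0] ![1 / 2, 0, 1] t) = _
  rw [Yc_pt (good_pp h1)]; simp

lemma GG_qq {t : ℂ} (h1 : ‖t‖ < 1) : GG (0, 2) (qq t) = 1 := by
  simp [GG, qq, Yc_pt (good_qq h1)]

lemma FFs_pp {t : ℂ} (h1 : ‖t‖ < 1) : FFs (0, 2) (pp t) = 1 / 2 := by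
  show Yc 0 2 (pt ![1, 0] ![1 / 2, 0, 1] t) * Yc 2 2 (pt ![1, 0] ![1 / 2, 0, 1] t) = _
  rw [Yc_pt (good_pp h1), Yc_pt (good_pp h1)]; simp

lemma FFs_qq {t : ℂ} (h1 : ‖t‖ < 1) : FFs (0, 2) (qq t) = 1 := by
  simp [FFs, qq, Yc_pt (good_qq h1)]

theorem no_extension {r : ℝ} (hr : 0 < r) {φ : Fin 2 × Fin 3 → XT → EReal}
    (hφ : LL.IsPosMetric (tc ⁻¹' ball 0 r) φ)
    (hext : ∀ q, ∀ P ∈ US q.1 q.2 ∩ tc ⁻¹' {0}, φ q P = elog (FFs q P)) : False := by
  set φ1 := φ (0, 2) with hφ1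
  have hpsh := hφ.psh (0, 2)
  have z1 : ‖(0 : ℂ)‖ < 1 := by simp
  have tcp : ∀ {t : ℂ}, ‖t‖ < 1 → tc (pp t) = t := fun h => tc_pt (good_pp h)
  have tcq : ∀ {t : ℂ}, ‖t‖ < 1 → tc (qq t) = t := fun h => tc_pt (good_qq h)
  -- boundary values
  have hp0 : φ1 (pp 0) = ((Real.log (1 / 2) : ℝ) : EReal) := by
    rw [hφ1, hext (0, 2) (pp 0) ⟨pp_mem z1, tcp z1⟩, FFs_pp z1, elog_of_ne (by norm_num)]
    norm_num
  have hq0 : φ1 (qq 0) = ((0 : ℝ) : EReal) := by
    rw [hφ1, hext (0, 2) (qq 0) ⟨qq_mem z1, tcq z1⟩, FFs_qq z1, elog_of_ne one_ne_zero]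
    norm_num
  set s : ℝ := Real.log 2 / 2 with hs
  have hlog2 : 0 < Real.log 2 := Real.log_pos one_lt_two
  have hspos : 0 < s := by rw [hs]; linarith
  -- continuity of the two curves
  have hcq : ContinuousOn qq (ball 0 1) := by
    refine continuousOn_pt ?_ ?_ continuousOn_id (fun t ht => good_qq (by simpa using ht))
    · refine (continuous_pi fun j => ?_).continuousOn
      fin_cases j <;> simp <;> fun_prop
    · refine (continuous_pi fun j => ?_).continuousOn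
      fin_cases j <;> simp <;> fun_prop
  have hr1 : 0 < min r 1 := lt_min hr one_pos
  have hnear : ∀ᶠ t in 𝓝 (0 : ℂ), φ1 (qq t) < (s : EReal) := by
    have h3 := hpsh.usc (qq 0) ⟨by
      show tc (qq 0) ∈ ball (0 : ℂ) r
      rw [tcq z1]; exact mem_ball_self hr, qq_mem z1⟩ (s : EReal) (by
        show φ1 (qq 0) < _
        rw [hq0]; exact_mod_cast hspos)
    have h4 : Tendsto qq (𝓝 0) (𝓝[tc ⁻¹' ball 0 r ∩ LL.U (0, 2)] (qq 0)) := by
      rw [tendsto_nhdsWithin_iff]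
      refine ⟨(hcq.continuousAt (ball_mem_nhds 0 one_pos)), ?_⟩
      filter_upwards [ball_mem_nhds (0 : ℂ) hr1] with t ht
      have ht' : ‖t‖ < min r 1 := by simpa using ht
      have ht1 : ‖t‖ < 1 := ht'.trans_le (min_le_right _ _)
      refine ⟨?_, qq_mem ht1⟩
      show tc (qq t) ∈ ball (0 : ℂ) r
      rw [tcq ht1]
      simpa using ht'.trans_le (min_le_left _ _)
    exact h4.eventually h3
  obtain ⟨δ, hδ, hball⟩ := Metric.eventually_nhds_iff.1 hnear
  -- comparison for small nonzero t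
  have hcomp : ∀ t : ℂ, t ≠ 0 → ‖t‖ < min δ (min r 1) →
      φ1 (pp t) ≤ ((s + Real.log (‖(1 / 2 : ℂ)‖ ^ 2) : ℝ) : EReal) := by
    intro t ht0 ht
    have htδ : ‖t‖ < δ := ht.trans_le (min_le_left _ _)
    have htr : ‖t‖ < r := ht.trans_le ((min_le_right _ _).trans (min_le_left _ _))
    have ht1 : ‖t‖ < 1 := ht.trans_le ((min_le_right _ _).trans (min_le_right _ _))
    obtain ⟨m, hm⟩ := const_VV hφ ht0 ht1 htr
    have e1 : VV φ (pp t) = VV φ (qq t) := by
      rw [pp_eq ht0 ht1, qq_eq ht0 ht1, hm _ (vec_ne 0), hm _ (vec_ne t)]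
    have bp : pp t ∈ tc ⁻¹' ball 0 r := by
      show tc (pp t) ∈ ball (0 : ℂ) r
      rw [tcp ht1]; simpa using htr
    have bq : qq t ∈ tc ⁻¹' ball 0 r := by
      show tc (qq t) ∈ ball (0 : ℂ) r
      rw [tcq ht1]; simpa using htr
    rw [VV_eq hφ bp (q := (0, 2)) (pp_mem ht1) (by rw [GG_pp ht1]; norm_num),
      VV_eq hφ bq (q := (0, 2)) (qq_mem ht1) (by rw [GG_qq ht1]; norm_num), GG_pp ht1, GG_qq ht1] at e1
    apply ereal_shift
    show φ (0, 2) (pp t) + _ ≤ _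
    rw [e1]
    have h5 : φ1 (qq t) ≤ (s : EReal) := (hball (by simpa using htδ)).le
    have h6 : ((-Real.log (‖(1 : ℂ)‖ ^ 2) : ℝ) : EReal) = 0 := by simp
    rw [h6, add_zero]
    exact h5
  -- sub-mean value at t = 0
  set ρ : ℝ := min δ (min r 1) / 2 with hρ
  have hmin : 0 < min δ (min r 1) := lt_min hδ hr1
  have hρ0 : 0 < ρ := by rw [hρ]; linarith
  have hρ1 : ρ < min δ (min r 1) := by rw [hρ]; linarith
  -- extension of the parameter outside the disc
  set R : ℝ := min δ (min r 1) / ρ with hR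
  have hR1 : 1 < R := by rw [hR, one_lt_div hρ0]; exact hρ1
  have hnz : ∀ z ∈ ball (0 : ℂ) R, ‖(ρ : ℂ) * z‖ < min δ (min r 1) := by
    intro z hz
    have hz' : ‖z‖ < R := by simpa using hz
    rw [norm_mul, Complex.norm_real, Real.norm_eq_abs, abs_of_pos hρ0]
    rw [hR, lt_div_iff₀ hρ0] at hz'
    linarith
  set γ : ℂ → XT := fun z => pp (ρ * z) with hγ
  have hcγ : ContinuousOn γ (ball 0 R) := by
    refine continuousOn_pt continuousOn_const continuousOn_const (by fun_prop)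
      (fun z hz => good_pp ((hnz z hz).trans_le ((min_le_right _ _).trans (min_le_right _ _))))
  have hdisc : IsDisc E3 (tc ⁻¹' ball 0 r ∩ LL.U (0, 2)) γ := by
    refine ⟨⟨R, hR1, fun z hz => ?_⟩, fun z hz => ?_⟩
    · apply MDifferentiableAt.mdifferentiableWithinAt
      rw [mdifferentiableAt_iff]
      refine ⟨hcγ.continuousAt (isOpen_ball.mem_nhds hz), ?_⟩
      obtain ⟨c, -, hc, he, -⟩ := ext_chart (γ z)
      rw [writtenInExtChartAt, he]
      simp only [extChartAt_self_eq, modelWithCornersSelf_coe, range_id,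
        differentiableWithinAt_univ]
      have h1 : DifferentiableAt ℂ (fun w : ℂ => (((![1, 0] : Fin 2 → ℂ) c.a / (![1, 0] : Fin 2 → ℂ) c.i,
          (![1 / 2, 0, 1] : Fin 3 → ℂ) c.b / (![1 / 2, 0, 1] : Fin 3 → ℂ) c.k, ρ * w) : E3)) z := by
        fun_prop
      refine h1.congr_of_eventuallyEq ?_
      filter_upwards [isOpen_ball.mem_nhds hz] with w hw
      have hg := good_pp ((hnz w hw).trans_le ((min_le_right _ _).trans (min_le_right _ _)))
      show (Xc c.a c.i (pp (ρ * w)), Yc c.b c.k (pp (ρ * w)), tc (pp (ρ * w))) = _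
      rw [pp, Xc_pt hg, Yc_pt hg, tc_pt hg]
    · have hz1 : z ∈ ball (0 : ℂ) R := by
        have : ‖z‖ ≤ 1 := by simpa using hz
        simpa using this.trans_lt hR1
      have h1 := (hnz z hz1)
      have h2 : ‖(ρ : ℂ) * z‖ < 1 := h1.trans_le ((min_le_right _ _).trans (min_le_right _ _))
      refine ⟨?_, pp_mem h2⟩
      show tc (pp (ρ * z)) ∈ ball (0 : ℂ) r
      rw [tcp h2, mem_ball, dist_zero_right]
      exact h1.trans_le ((min_le_right _ _).trans (min_le_left _ _))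
  have hsm := hpsh.submean γ hdisc (fun _ => s + Real.log (‖(1 / 2 : ℂ)‖ ^ 2)) continuousOn_const
    (fun z hz => by
      have hz' : ‖z‖ = 1 := by simpa using hz
      refine hcomp _ ?_ (hnz z (by rw [mem_ball, dist_zero_right, hz']; exact hR1))
      refine mul_ne_zero (by exact_mod_cast hρ0.ne') ?_
      intro h
      rw [h, norm_zero] at hz'
      exact zero_ne_one hz')
  rw [Real.circleAverage_const] at hsm
  have hγ0 : γ 0 = pp 0 := by simp [hγ]
  rw [hγ0] at hsm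
  have h7 : φ1 (pp 0) ≤ ((s + Real.log (‖(1 / 2 : ℂ)‖ ^ 2) : ℝ) : EReal) := hsm
  rw [hp0, EReal.coe_le_coe_iff] at h7
  have h8 : ‖(1 / 2 : ℂ)‖ = 1 / 2 := by norm_num
  rw [h8, Real.log_pow, one_div, Real.log_inv] at h7
  push_cast at h7
  rw [hs] at h7
  linarith

end Pool.Agent.Helper47.Ext
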